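import Pool.Agent.H45.UZ.TarA

/-!
# MP_f6fd33_lc: targets for sections 3, 4, 6 (worlds, stages, the lemmas V, A, F, I, P, K, U)

Paper proof: /team-store/H72_f6fd33_proof2.md.
-/

set_option linter.unusedVariables false

open Ordinal Order Set
open scoped ZFSet

namespace SE.UZ

open SF

/-! ## Section 3: counting of the stages -/

/-- PWE: the equation of the recursion -/
def T_PWE : Prop := ∀ (b : BS) (D : Cx) σ B h, b.Wd D σ B h ↔ b.Iw D (b.Wd D) σ B h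

/-- PSJ: the numbers of the stages -/
def T_PSJ : Prop := ∀ (b : BS) (D : Cx) (F : Fam),
  (∀ e, b.cn D F e ≤ e) ∧ (∀ e e', e ≤ e' → b.cn D F e ≤ b.cn D F e') ∧
  (∀ e e', b.Ls D F e → e < e' → b.cn D F e < b.cn D F e') ∧
  (∀ e e', b.Ls D F e → b.Ls D F e' → b.cn D F e = b.cn D F e' → e = e') ∧
  (∀ σ ζ, ζ < b.cn D F σ → ∃ e < σ, b.Ls D F e ∧ b.cn D F e = ζ) ∧
  (∀ σ, b.cn D F (succ σ) = b.cn D F σ ∨ b.Ls D F σ ∧ b.cn D F (succ σ) = succ (b.cn D F σ)) ∧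
  (∀ σ t, b.sj D F σ t ≤ σ) ∧
  (∀ σ t, b.sj D F σ t < σ → b.Ls D F (b.sj D F σ t) ∧
    (b.cn D F (b.sj D F σ t)).toZFSet = t) ∧
  (∀ σ σ' t, σ ≤ σ' → b.sj D F σ t = min σ (b.sj D F σ' t)) ∧
  (∀ σ e t, b.Ls D F e → (b.cn D F e).toZFSet = t → b.sj D F σ t = min σ e) ∧
  (∀ σ e t, b.Ls D F e → t ∈ (succ (b.cn D F e)).toZFSet → b.sj D F σ t ≤ e) ∧
  ∀ σ e t, b.Ls D F e → e < σ → b.sj D F σ t ≤ e → t ∈ (succ (b.cn D F e)).toZFSet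

/-! ### Closed objects (3.1) -/

/-- POA (3.1 a): faces and closed objects -/
def T_POA : Prop := ∀ (D : Cx) κ, Amb D κ → ∀ b : BS, b.Ok D κ → ∀ B, b.Obs B →
  (∀ C, b.Le C B → (b.Obs C ↔ ∀ j ∈ b.u C, b.Co j → vw j ⊆ b.u C)) ∧
  (∀ C C' E, b.Le C B → b.Le C' B → b.Obs C → b.Obs C' → b.Le E B → b.u E = b.u C ∩ b.u C' →
    b.Obs E ∧ b.Le E C ∧ b.Le E C') ∧
  ∀ j ∈ b.u B, b.Co j → (∃ A, b.Le A B ∧ b.u A = vw j ∧ b.Obs A) ∧ vw j ⊆ b.u B ∧ j ∉ vw j ∧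
    D.N (vw j) ∧ Tr (vw j) ∧ CS D (vw j) ∧ ∀ k ∈ vw j, k.rank < j.rank

/-- POB (3.1 b): bounds of agreeing families of closed objects -/
def T_POB : Prop := ∀ (D : Cx) κ, Amb D κ → ∀ b : BS, b.Ok D κ → ∀ I F, b.Ag D I F →
  (∀ v ∈ I, b.Obs (app F v)) →
  (∀ v ∈ I, ∀ v' ∈ I, ∀ C, b.Le C (app F v) → b.Le C (app F v') →
    b.u C = b.u (app F v) ∩ b.u (app F v') → b.Obs C) ∧
  (∀ B ∈ b.Ob, (∀ v ∈ I, b.Le (app F v) B) →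
    (∀ k ∈ b.u B, (∀ v ∈ I, k ∉ b.u (app F v)) → Kl b.l k) → b.Obs B) ∧
  ∀ Z ∈ D.H, ∃ B, b.Obs B ∧ (∀ v ∈ I, b.Ri (app F v) B ∧ b.Le (app F v) B) ∧
    ∀ k ∈ b.u B, (∀ v ∈ I, k ∉ b.u (app F v)) → Kl b.l k ∧ k ∉ Z

/-- POC (3.1 c): new labels -/
def T_POC : Prop := ∀ (D : Cx) κ, Amb D κ → ∀ b : BS, b.Ok D κ → ∀ B, b.Obs B → ∀ Y, D.N Y →
  Nam D.L (b.u B) Y → ∀ (e : ℕ) u, (e = 0 ∨ b.l < e ∨ (e = b.l ∧ u = b.u B)) →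
  ∀ τ ∈ D.H, u ∈ D.H → ∀ Z ∈ D.H, ∃ B' i, b.Le B B' ∧ b.Obs B' ∧ i ∈ b.u B' ∧ i ∉ b.u B ∧
    i ∉ Z ∧ kd i = nS e ∧ tm i = τ ∧ vw i = u ∧ lS i ⊆ b.u B ∧
    (∀ G, D.Gn (b.u B') G → ev G (lZ i) = ev G Y) ∧
    ∀ k ∈ b.u B', k ∉ b.u B → k ≠ i → Kl b.l k ∧ k ∉ Z

/-- the isomorphism `π` of the closed object `B` onto `ρ'` transports the views of the coding labels;
the images of the coding labels have the same stages (at stage `σ`) -/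
structure BS.SI (b : BS) (D : Cx) (σ : Ordinal.{0}) (π B ρ' : V) : Prop where
  i : Isl D b.l b.S π (b.u B) ρ'
  o : b.Obs B
  v : ∀ j ∈ b.u B, b.Co j → vw (app π j) = im π (vw j) ∧
    b.sj D (b.Wd D) σ (tm (app π j)) = b.sj D (b.Wd D) σ (tm j)

/-- POT (3.1 d): transport of closed objects -/
def T_POT : Prop := ∀ (D : Cx) κ, Amb D κ → ∀ b : BS, b.Ok D κ → ∀ π B ρ', b.Obs B →
  Isl D b.l b.S π (b.u B) ρ' → (∀ j ∈ b.u B, b.Co j → vw (app π j) = im π (vw j)) →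
  b.Obs (b.T π B) ∧ b.u (b.T π B) = ρ' ∧
  ∀ σ, b.SI D σ π B ρ' → b.SI D σ (inv π) (b.T π B) (b.u B) ∧ (∀ e ≤ σ, b.SI D e π B ρ') ∧
    ∀ C, b.Le C B → b.Obs C → b.SI D σ (rst (b.u C) π) C (im π (b.u C)) ∧
      b.Le (b.T (rst (b.u C) π) C) (b.T π B) ∧ b.u (b.T (rst (b.u C) π) C) = im π (b.u C)

/-! ### Histories -/

/-- PHA: values of histories -/
def T_PHA : Prop := ∀ D : Cx, D.Ok → ∀ ρ ρ' h σ, D.N ρ → Cld D.L ρ → D.N ρ' → Cld D.L ρ' →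
  ρ ⊆ ρ' → His D ρ h σ →
  (∀ G, D.Gn ρ' G → (∀ X y e, (Ent h G X y e ↔ Ent h (gs G ρ) X y e) ∧
    (Ent h G X y e → RR D ρ G X ∧ RR D ρ G y ∧ e < σ ∧ D.N e.toZFSet)) ∧
    ∀ X, Dcc h G X ↔ Dcc h (gs G ρ) X) ∧
  (∀ e, His D ρ (hr h e) σ ∧ His D ρ (hr h e) e ∧ (σ ≤ e → hr h e = h) ∧
    (∀ d, d ≤ e → hr (hr h e) d = hr h d) ∧
    ∀ G X y d, Ent (hr h e) G X y d ↔ Ent h G X y d ∧ d < e) ∧
  ∀ τ, σ ≤ τ → His D ρ h τ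

/-- PHB: images of histories -/
def T_PHB : Prop := ∀ D : Cx, D.Ok → ∀ l S π ρ ρ', Sl l S → Isl D l S π ρ ρ' → ∀ h σ,
  His D ρ h σ → His D ρ' (mvh π h) σ ∧ mvh (inv π) (mvh π h) = h ∧
  (∀ e, hr (mvh π h) e = mvh π (hr h e)) ∧
  (∀ G, D.Gn ρ G → ∀ X y e, (Ent (mvh π h) (gi D π ρ' G) X y e ↔ Ent h G X y e)) ∧
  (∀ s, D.N s → s ⊆ ρ → Tr s → Vws S s → ∀ τ,
    (Loc D ρ' (mvh π h) (im π s) τ ↔ Loc D ρ h s τ) ∧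
    ∀ h0, His D s h0 σ → mvh (rst s π) h0 = mvh π h0 ∧
      ((∀ G, D.Gn ρ G → ∀ X, RR D s G X → ∀ y e, (Ent h0 G X y e ∧ e < τ ↔
        Ent h G X y e ∧ e < τ)) →
        ∀ G, D.Gn ρ' G → ∀ X, RR D (im π s) G X → ∀ y e, (Ent (mvh π h0) G X y e ∧ e < τ ↔
          Ent (mvh π h) G X y e ∧ e < τ))) ∧
  (Idn π ρ → mvh π h = h)

/-- PLW: the face relation of worlds -/
def T_PLW : Prop := ∀ (D : Cx) κ, Amb D κ → ∀ b : BS, b.Ok D κ →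
  (∀ σ B h, B ∈ b.Ob → b.LW D σ B h B h) ∧
  (∀ σ B0 h0 B1 h1 B2 h2 σ1 σ2, B0 ∈ b.Ob → His D (b.u B0) h0 σ1 → His D (b.u B1) h1 σ2 →
    b.LW D σ B0 h0 B1 h1 → b.LW D σ B1 h1 B2 h2 → b.LW D σ B0 h0 B2 h2) ∧
  (∀ σ e B0 h0 B1 h1, e ≤ σ → b.LW D σ B0 h0 B1 h1 → b.LW D e B0 h0 B1 h1) ∧
  (∀ σ1 σ2 e d d' B0 h0 B1 h1, His D (b.u B0) h0 σ1 → His D (b.u B1) h1 σ2 → e ≤ d → e ≤ d' →
    (b.LW D e B0 (hr h0 d) B1 (hr h1 d') ↔ b.LW D e B0 h0 B1 h1)) ∧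
  ∀ σ1 σ2 e B0 h0 B1 h1, His D (b.u B0) h0 σ1 → His D (b.u B1) h1 σ2 → b.LW D e B0 h0 B1 h1 →
    ∀ G, D.Gn (b.u B1) G → ∀ X, RR D (b.u B0) G X → ∀ d ≤ e,
      (Dcc (hr h0 d) G X ↔ Dcc (hr h1 d) G X)

/-- PW2 (3.2): restriction of worlds; robustness is inherited by extensions -/
def T_PW2 : Prop := ∀ (D : Cx) κ, Amb D κ → ∀ b : BS, b.Ok D κ →
  (∀ σ e B h, e ≤ σ → b.Wd D σ B h → b.Wd D e B (hr h e)) ∧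
  ∀ σ e C h0 B h G X y, e ≤ σ → b.Wd D e C h0 → b.Wd D σ B h → b.LW D e C h0 B h →
    D.Gn (b.u B) G → b.Kb D (b.Wd D) σ B h G X y →
    b.Kb D (b.Wd D) e C h0 (gs G (b.u C)) X y

/-- PW3 (3.3): histories with the same values -/
def T_PW3 : Prop := ∀ (D : Cx) κ, Amb D κ → ∀ b : BS, b.Ok D κ → ∀ σ B h h1, B ∈ b.Ob →
  His D (b.u B) h σ → His D (b.u B) h1 σ →
  (∀ G, D.Gn (b.u B) G → ∀ X y e, (Ent h G X y e ↔ Ent h1 G X y e)) →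
  (b.Wd D σ B h ↔ b.Wd D σ B h1) ∧ (∀ G, D.Gn (b.u B) G → ∀ X,
    (∀ y, b.Kb D (b.Wd D) σ B h G X y ↔ b.Kb D (b.Wd D) σ B h1 G X y) ∧
    (b.Nn D (b.Wd D) σ B h G X ↔ b.Nn D (b.Wd D) σ B h1 G X) ∧
    (b.Rg D (b.Wd D) σ B h G X ↔ b.Rg D (b.Wd D) σ B h1 G X)) ∧
  (∀ C h0, b.LW D σ C h0 B h ↔ b.LW D σ C h0 B h1) ∧
  ∀ C h0, b.LW D σ B h C h0 ↔ b.LW D σ B h1 C h0

/-! ### Decided properties; the interface to the definability part -/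

/-- the property `X` of the generic filters on `ρ` is decided by conditions -/
def Dcd (D : Cx) (ρ : V) (X : V → Prop) : Prop :=
  ∃ O, D.N O ∧ ∀ G, D.Gn ρ G → (X G ↔ ∃ p ∈ G, p ∈ O)

/-- PDE: the properties which occur in the definition of worlds are decided by conditions -/
def T_PDE : Prop := ∀ (D : Cx) κ, Amb D κ → ∀ b : BS, b.Ok D κ → ∀ σ : Ordinal.{0},
  D.N σ.toZFSet → ∀ B ∈ b.Ob, ∀ h θ, His D (b.u B) h θ → ∀ X Y, D.N X → D.N Y →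
  Nam D.L (b.u B) X → Nam D.L (b.u B) Y →
  Dcd D (b.u B) (fun G => Ent h G (ev G X) (ev G Y) σ) ∧
  Dcd D (b.u B) (fun G => Dcc h G (ev G X)) ∧
  Dcd D (b.u B) (fun G => b.Se B G (ev G X) (ev G Y)) ∧
  Dcd D (b.u B) (fun G => b.Ss D B G (ev G X) (ev G Y)) ∧
  Dcd D (b.u B) (fun G => b.Kil D B G (ev G X) (ev G Y)) ∧
  Dcd D (b.u B) (fun G => b.Kb D (b.Wd D) σ B h G (ev G X) (ev G Y)) ∧
  Dcd D (b.u B) (fun G => b.Nn D (b.Wd D) σ B h G (ev G X)) ∧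
  Dcd D (b.u B) (fun G => b.Rg D (b.Wd D) σ B h G (ev G X)) ∧
  Dcd D (b.u B) (fun G => b.Pt B G (ev G X)) ∧
  Dcd D (b.u B) (fun G => ev G X = ev G Y) ∧
  (∀ s, D.N s → s ⊆ b.u B → Tr s → Dcd D (b.u B) (fun G => RR D s G (ev G X))) ∧
  (b.Obs B → Dcd D (b.u B) (fun G => ∃ j ∈ b.u B, b.Co j ∧ Sn D G (ev G X) (ev G Y) j))

/-- PDB: decided properties are closed under boolean operations and can be forced -/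
def T_PDB : Prop := ∀ D : Cx, D.Ok → ∀ ρ, D.N ρ → Cld D.L ρ → ∀ X : V → Prop, Dcd D ρ X →
  Dcd D ρ (fun G => ¬ X G) ∧ (∀ Y : V → Prop, Dcd D ρ Y → Dcd D ρ (fun G => X G ∧ Y G)) ∧
  (∀ Y : V → Prop, (∀ G, D.Gn ρ G → (Y G ↔ X G)) → Dcd D ρ Y) ∧
  (∀ G, D.Gn ρ G → X G → ∃ p ∈ G, p ∈ D.P ρ ∧ ∀ G', D.Gn ρ G' → p ∈ G' → X G') ∧
  ∀ ρ', D.N ρ' → Cld D.L ρ' → ρ ⊆ ρ' → Dcd D ρ' (fun G => X (gs G ρ))

/-- PAH: existence (in the ground model) of the history for the amalgamation -/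
def T_PAH : Prop := ∀ (D : Cx) κ, Amb D κ → ∀ b : BS, b.Ok D κ → ∀ σ : Ordinal.{0},
  D.N σ.toZFSet → ∀ (I B h : V) (s : V → Ordinal.{0}) (Bp : V), D.N I → D.N B → D.N h →
  D.N (resS I fun v => (s v).toZFSet) → Bp ∈ b.Ob →
  (∀ v ∈ I, s v ≤ σ ∧ b.Wo D (s v) (app B v) (app h v) ∧ b.Le (app B v) Bp) →
  (∀ v ∈ I, ∀ v' ∈ I, ∀ G, D.Gn (b.u Bp) G → ∀ X, RR D (b.u (app B v)) G X →
    RR D (b.u (app B v')) G X → ∀ e, e < s v → e < s v' → ∀ y,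
    (Ent (app h v) G X y e ↔ Ent (app h v') G X y e)) →
  ∃ hp, His D (b.u Bp) hp σ ∧ ∀ G, D.Gn (b.u Bp) G → ∀ X, RR D (b.u Bp) G X → ∀ e < σ,
    (∀ v ∈ I, RR D (b.u (app B v)) G X → e < s v → ∀ y,
      (Ent hp G X y e ↔ Ent (app h v) G X y e)) ∧
    ((∀ v ∈ I, e < s v → ¬ RR D (b.u (app B v)) G X) →
      (b.Ls D (b.Wd D) e → ∀ y, ¬ Ent hp G X y e) ∧
      (¬ b.Ls D (b.Wd D) e →
        ((∃ y, Ent hp G X y e) ↔ ¬ Dcc (hr hp e) G X ∧ b.Rg D (b.Wd D) e Bp (hr hp e) G X) ∧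
        (∀ y, Ent hp G X y e → ¬ b.Kb D (b.Wd D) e Bp (hr hp e) G X y) ∧
        ∀ y y', Ent hp G X y e → Ent hp G X y' e → y = y'))

/-! ## Section 4: the lemmas at stage `σ` -/

section

variable (b : BS) (D : Cx) (σ : Ordinal.{0})

/-- (V) -/
structure BS.PV : Prop where
  w : ∀ π B ρ' h, b.Wd D σ B h → b.SI D σ π B ρ' →
    (∀ e < σ, b.Ls D (b.Wd D) e → ∀ G, D.Gn ρ' G → ∀ X y, Ent (mvh π h) G X y e →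
      ¬ b.Pt (b.T π B) G X) → b.Wd D σ (b.T π B) (mvh π h)
  t : ∀ π B ρ' h, b.Wd D σ B h → b.SI D σ π B ρ' → b.Wd D σ (b.T π B) (mvh π h) →
    ∀ G, D.Gn (b.u B) G → ∀ X,
      (∀ y, b.Kb D (b.Wd D) σ B h G X y ↔
        b.Kb D (b.Wd D) σ (b.T π B) (mvh π h) (gi D π ρ' G) X y) ∧
      (b.Nn D (b.Wd D) σ B h G X ↔ b.Nn D (b.Wd D) σ (b.T π B) (mvh π h) (gi D π ρ' G) X) ∧
      (b.Rg D (b.Wd D) σ B h G X ↔ b.Rg D (b.Wd D) σ (b.T π B) (mvh π h) (gi D π ρ' G) X)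

/-- the hypotheses of (A): an amalgamation family `(B v, h v)`, `v ∈ I`, of worlds of the stages
`s v` -/
structure BS.AF (I B h : V) (s : V → Ordinal.{0}) (Bp : V) : Prop where
  nI : D.N I
  nB : D.N B
  nh : D.N h
  ns : D.N (resS I fun v => (s v).toZFSet)
  o : b.Obs Bp
  ls : ∀ v ∈ I, s v ≤ σ
  w : ∀ v ∈ I, b.Wd D (s v) (app B v) (app h v)
  le : ∀ v ∈ I, b.Le (app B v) Bp
  a1 : ∀ G, D.Gn (b.u Bp) G → ∀ v ∈ I, ∀ v' ∈ I, ∀ X,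
    RR D (b.u (app B v) ∩ b.u (app B v')) G X → ∀ y e, e < s v → e < s v' →
    (Ent (app h v) G X y e ↔ Ent (app h v') G X y e)
  a2 : ∀ j ∈ b.u Bp, b.Co j → ∃ v ∈ I, vw j ⊆ b.u (app B v) ∧ b.sj D (b.Wd D) σ (tm j) ≤ s v ∧
    Loc D (b.u (app B v)) (app h v) (vw j) (b.sj D (b.Wd D) σ (tm j)) ∧
    ∀ G, D.Gn (b.u Bp) G → ∀ X y e, e < b.sj D (b.Wd D) σ (tm j) → Ent (app h v) G X y e →
      ev G (lZ j) ≠ prl X y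
  a3 : ∀ G, D.Gn (b.u Bp) G → ∀ j ∈ b.u Bp, b.Co j → ∀ v ∈ I, ∀ X y e,
    Ent (app h v) G X y e → b.Ls D (b.Wd D) e →
    tm j ∈ (succ (b.cn D (b.Wd D) e)).toZFSet → ¬ Sn D G X y j

/-- (A) amalgamation -/
def BS.PA : Prop := ∀ I B h s Bp, b.AF D σ I B h s Bp →
  ∃ hp, b.Wd D σ Bp hp ∧ ∀ v ∈ I, b.LW D (s v) (app B v) (app h v) Bp hp

/-- (I) invariance -/
def BS.PI : Prop := ∀ C h0 B h, b.Wd D σ C h0 → b.Wd D σ B h → b.LW D σ C h0 B h →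
  ∀ G, D.Gn (b.u B) G → ∀ X, RR D (b.u C) G X →
    (∀ y, RR D (b.u C) G y → (b.Kb D (b.Wd D) σ C h0 (gs G (b.u C)) X y ↔
      b.Kb D (b.Wd D) σ B h G X y)) ∧
    (b.Nn D (b.Wd D) σ C h0 (gs G (b.u C)) X ↔ b.Nn D (b.Wd D) σ B h G X) ∧
    (b.Rg D (b.Wd D) σ C h0 (gs G (b.u C)) X ↔ b.Rg D (b.Wd D) σ B h G X)

/-- `(C, ·)` is fresh in `(B, h)` from the stage `r` on: no late entry is over `C` -/
def BS.Frs (r : Ordinal.{0}) (C B h : V) : Prop := ∀ G, D.Gn (b.u B) G → ∀ X y e,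
  Ent h G X y e → r ≤ e → b.Ls D (b.Wd D) e → ¬ (RR D (b.u C) G X ∧ RR D (b.u C) G y)

/-- (P) persistence -/
def BS.PP : Prop := ∀ r ≤ σ, b.Ls D (b.Wd D) r → (b.cn D (b.Wd D) r).toZFSet ∈ D.H →
  ∀ C h0 B h, b.Wd D r C h0 → b.Wd D σ B h → b.LW D r C h0 B h → b.Frs D r C B h →
  ∀ G, D.Gn (b.u B) G → ∀ X, RR D (b.u C) G X →
    (∀ y, RR D (b.u C) G y → b.Kb D (b.Wd D) r C h0 (gs G (b.u C)) X y →
      b.Kb D (b.Wd D) σ B h G X y) ∧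
    (b.Nn D (b.Wd D) r C h0 (gs G (b.u C)) X → b.Nn D (b.Wd D) σ B h G X)

/-- (F) faces -/
def BS.PF : Prop := ∀ C h0 B h, b.Obs C → His D (b.u C) h0 σ → b.Wd D σ B h →
  b.LW D σ C h0 B h → b.Wd D σ C h0

/-- (K) -/
def BS.PK : Prop := ∀ B h, b.Wd D σ B h → ∀ G, D.Gn (b.u B) G → ∀ X y, RR D (b.u B) G X →
  ¬ Dcc h G X → b.Rg D (b.Wd D) σ B h G X → ¬ b.Kb D (b.Wd D) σ B h G X y →
  ∀ j ∈ b.u B, b.Co j → b.sj D (b.Wd D) σ (tm j) < σ → ¬ Sn D G X y j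

end

/-- the context of the lemmas: a stage `σ` of the ground model -/
structure Ctx (D : Cx) (κ : V) (b : BS) (σ : Ordinal.{0}) : Prop where
  am : Amb D κ
  ok : b.Ok D κ
  s : D.N σ.toZFSet

/-- LV: (V) -/
def T_LV : Prop := ∀ D κ b σ, Ctx D κ b σ → (∀ e < σ, b.PV D e) → b.PV D σ

/-- LA: (A) -/
def T_LA : Prop := ∀ D κ b σ, Ctx D κ b σ → (∀ e < σ, b.PI D e) → (∀ e < σ, b.PK D e) → b.PA D σ

/-- CPF: families of copies of worlds over a face; `ζ = D.H` (times unchanged) or `r` is the L-stage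
with the number `ζ` -/
def T_CPF : Prop := ∀ D κ b r, Ctx D κ b r → b.PV D r → ∀ C h0 Z I Eo Eh ζ, b.Wd D r C h0 →
  Z ∈ D.H → I ∈ D.H → D.N Eo → D.N Eh →
  (∀ v ∈ I, b.Wd D r (app Eo v) (app Eh v) ∧ b.LW D r C h0 (app Eo v) (app Eh v)) →
  (ζ = D.H ∨ ζ ∈ D.H ∧ b.Ls D (b.Wd D) r ∧ ζ = (b.cn D (b.Wd D) r).toZFSet) →
  ∃ P B' h', D.N P ∧ D.N B' ∧ D.N h' ∧
    (∀ v ∈ I, b.SI D r (app P v) (app Eo v) (b.u (app B' v)) ∧ Idn (app P v) (b.u C) ∧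
      app B' v = b.T (app P v) (app Eo v) ∧ app h' v = mvh (app P v) (app Eh v) ∧
      b.u (app B' v) = im (app P v) (b.u (app Eo v)) ∧ b.Wd D r (app B' v) (app h' v) ∧
      b.LW D r C h0 (app B' v) (app h' v) ∧
      ∀ j ∈ b.u (app B' v), j ∉ b.u C → Kl (b.l + 1) j ∧ j ∉ Z ∧
        (ζ ∈ D.H → b.Co j → tm j ∈ insert ζ ζ)) ∧
    ∀ v ∈ I, ∀ v' ∈ I, v ≠ v' → b.u (app B' v) ∩ b.u (app B' v') = b.u C

/-- LI: (I) -/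
def T_LI : Prop := ∀ D κ b σ, Ctx D κ b σ → (∀ e ≤ σ, b.PV D e) → b.PA D σ → b.PI D σ

/-- LP: (P) -/
def T_LP : Prop := ∀ D κ b σ, Ctx D κ b σ → (∀ e ≤ σ, b.PV D e) → b.PA D σ → b.PP D σ

/-- LF: (F) -/
def T_LF : Prop := ∀ D κ b σ, Ctx D κ b σ → (∀ e < σ, b.PI D e) → b.PF D σ

/-- LK: (K) -/
def T_LK : Prop := ∀ D κ b σ, Ctx D κ b σ → b.PP D σ → (∀ e ≤ σ, b.PF D e) → b.PK D σ

/-- LL: all lemmas at all stages -/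
def T_LL : Prop := ∀ D κ b σ, Ctx D κ b σ →
  b.PV D σ ∧ b.PA D σ ∧ b.PI D σ ∧ b.PP D σ ∧ b.PF D σ ∧ b.PK D σ

/-- L4 (4.1): reals which are not of the form `⟨k_0, ⟨a, x⟩⟩` -/
def T_L4 : Prop := ∀ D κ b σ, Ctx D κ b σ → b.PA D σ → ∀ B h, b.Wd D σ B h →
  ∀ G, D.Gn (b.u B) G → ∀ X, RR D (b.u B) G X →
  (∀ a x, Rl a → Rl x → X ≠ prl (kc 0) (prl a x)) →
  (∀ y, ¬ b.Kb D (b.Wd D) σ B h G X y) ∧ b.Nn D (b.Wd D) σ B h G X ∧ ¬ b.Rg D (b.Wd D) σ B h G X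

/-- A: (A) as a theorem -/
def T_A : Prop := ∀ D κ b σ, Ctx D κ b σ → ∀ I B h s Bp, b.AF D σ I B h s Bp →
  ∃ hp, b.Wd D σ Bp hp ∧ ∀ v ∈ I, b.LW D (s v) (app B v) (app h v) Bp hp

/-- A1: the amalgamation of worlds of the same stage -/
def T_A1 : Prop := ∀ D κ b σ, Ctx D κ b σ → ∀ I B h Bp, D.N I → D.N B → D.N h → b.Obs Bp →
  (∀ v ∈ I, b.Wd D σ (app B v) (app h v) ∧ b.Le (app B v) Bp) →
  (∀ G, D.Gn (b.u Bp) G → ∀ v ∈ I, ∀ v' ∈ I, ∀ X,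
    RR D (b.u (app B v) ∩ b.u (app B v')) G X → ∀ y e, e < σ →
    (Ent (app h v) G X y e ↔ Ent (app h v') G X y e)) →
  (∀ j ∈ b.u Bp, b.Co j → ∃ v ∈ I, j ∈ b.u (app B v)) →
  b.AF D σ I B h (fun _ => σ) Bp

/-! ## Section 6: unseen candidates -/

/-- LU: (U) -/
def T_LU : Prop := ∀ D κ b r, Ctx D κ b r → b.Ls D (b.Wd D) r → ∀ B h, b.Wd D r B h →
  ∀ G, D.Gn (b.u B) G → ∀ X, RR D (b.u B) G X → ¬ Dcc h G X → b.Nn D (b.Wd D) r B h G X →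
  ∃ B' h' G' y, b.Ew D (b.Wd D) r B h G B' h' G' ∧ RR D (b.u B') G' y ∧ ¬ RR D (b.u B) G' y ∧
    ¬ b.Kb D (b.Wd D) r B' h' G' X y ∧ ∀ j ∈ b.u B', b.Co j → ¬ Sn D G' X y j

end SE.UZ
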