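import Pool.Agent.H38.UZ.TarZ

/-!
# MP_f6fd33_lc: Y12 (limit steps, pairwise compatibility)
-/

set_option linter.unusedVariables false

open Ordinal Order Set
open scoped ZFSet

namespace SE.UZ

open SF

namespace Y12

theorem cmtSymm {b : BS} {D : Cx} {s s' : Ordinal.{0}} {B h B' h' : V}
    (H : b.Cmt D s B h s' B' h') : b.Cmt D s' B' h' s B h := by
  obtain ⟨C, h0, θ, h1, h2, h3, h4⟩ := H
  refine ⟨C, h0, θ, ?_, h2, ?_, ?_⟩
  · rw [h1]; ext x; simp only [ZFSet.mem_inter]; exact and_comm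
  · rw [min_comm]; exact h4
  · rw [min_comm]; exact h3

end Y12

theorem pf_Y12 (hW0 : T_W0) (hZR : T_ZR) (hZW : T_ZW) : T_Y12 := by
  intro D κ b hA hO I F Z ξ0 v0 w0 hP ξ hξ hlim f hf
  obtain ⟨z1, z2, z3, z4, z5, z6, z7, z8⟩ := hZR D κ b hA hO
  have hk : ∀ η ∈ ξ, η ∈ κ := z1 ξ hξ
  -- reflexivity
  have hrefl : ∀ (s : Ordinal.{0}) (B h : V), B ∈ b.Ob → b.LW D s B h B h := fun s B h hB =>
    ⟨hO.rfl B hB, fun G _ X _ y e => Iff.rfl⟩
  have key : ∀ η ∈ ξ, ∀ η' ∈ ξ, η ⊆ η' → b.Cmt D (b.rho D η) (fst (app f η)) (snd (app f η))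
      (b.rho D η') (fst (app f η')) (snd (app f η')) := by
    intro η hη η' hη' hs
    have hw := (hf.g η hη).w.w
    have hw' := (hf.g η' hη').w.w
    have hLe : b.LW D (b.rho D η) (fst (app f η)) (snd (app f η)) (fst (app f η'))
        (snd (app f η')) := by
      rcases ((z4 η (hk η hη) η' (hk η' hη')).1).1 hs with h1 | h1
      · exact (hf.r η' hη' η h1).le
      · subst h1
        exact hrefl _ _ _ (hZW D κ b hA hO _ _ _ hw).1.1
    have hmin : min (b.rho D η) (b.rho D η') = b.rho D η :=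
      min_eq_left (((z4 η (hk η hη) η' (hk η' hη')).2.2.2.2.1).1 hs)
    refine ⟨fst (app f η), snd (app f η), b.rho D η, ?_, ?_, ?_, ?_⟩
    · have hsub := (hO.leO _ _ hLe.le).2.2
      ext x
      simp only [ZFSet.mem_inter]
      exact ⟨fun h => ⟨h, hsub h⟩, fun h => h.1⟩
    · exact (hZW D κ b hA hO _ _ _ hw).1.2.2.2.2.2.2.2.2.2.1
    · exact hrefl _ _ _ (hZW D κ b hA hO _ _ _ hw).1.1
    · rw [hmin]; exact hLe
  refine ⟨?_, ?_⟩
  · intro η hη η' hη'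
    rcases z3 η (hk η hη) η' (hk η' hη') with h | h | h
    · exact key η hη η' hη' (((z4 η (hk η hη) η' (hk η' hη')).1).2 (Or.inl h))
    · exact key η hη η' hη' (((z4 η (hk η hη) η' (hk η' hη')).1).2 (Or.inr h))
    · exact Y12.cmtSymm
        (key η' hη' η hη (((z4 η' (hk η' hη') η (hk η hη)).1).2 (Or.inl h)))
  · intro η hη v hv
    have hT : b.Tw D κ (app F v) := hP.t v hv
    have hηκ := hk η hη
    obtain ⟨-, -, w3, w4, w5, -⟩ := hW0 D κ b hA hO (app F v) hT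
    have hss : η ⊆ ξ := ((z4 η hηκ ξ hξ).1).2 (Or.inl hη)
    have hi := (hf.g η hη).i v hv
    have e1 : b.u (fst (app f η)) ∩ b.u (tK (app F v) ξ) = b.u (tK (app F v) η) := by
      ext x
      simp only [ZFSet.mem_inter]
      constructor
      · rintro ⟨h1, h2⟩
        rw [← hi]
        exact ZFSet.mem_inter.2 ⟨h1, (w4 ξ hξ).2.2 h2⟩
      · intro h1
        have h2 := h1
        rw [← hi] at h2
        exact ⟨(ZFSet.mem_inter.1 h2).1, (w5 η hηκ ξ hξ hss).2 h1⟩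
    have hmin : min (b.rho D η) (b.rho D ξ) = b.rho D η :=
      min_eq_left (((z4 η hηκ ξ hξ).2.2.2.2.1).1 hss)
    refine ⟨⟨tK (app F v) η, tH (app F v) η, b.rho D η, e1.symm, ?_, ?_, ?_⟩, e1⟩
    · exact (hZW D κ b hA hO _ _ _ (w4 η hηκ).2.1).1.2.2.2.2.2.2.2.2.2.1
    · rw [hmin]; exact (hf.g η hη).le v hv
    · rw [hmin]; exact hT.t0 η hηκ ξ hξ hη

end SE.UZ
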