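import Pool.Agent.H72.UZ.Tow

/-!
# MP_f6fd33_lc: targets for sections 0 and 1 (locality, isomorphisms, copies)

Paper proof: /team-store/H72_f6fd33_proof2.md.
-/

set_option linter.unusedVariables false

open Ordinal Order Set
open scoped ZFSet

namespace SE.UZ

open SF

/-! ## Section 0: locality -/

/-- QF4 (F4): a family of properties which is decided by the restriction to `ρ1` and by the restriction to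
`ρ2` is decided by the restriction to `ρ1 ∩ ρ2` (below a condition `p`) -/
def T_QF4 : Prop := ∀ D : Cx, D.Ok → ∀ ρ ρ1 ρ2, D.N ρ → Cld D.L ρ → D.N ρ1 → D.N ρ2 → ρ1 ⊆ ρ →
  ρ2 ⊆ ρ → Tr ρ1 → Tr ρ2 → ∀ p ∈ D.P ρ, ∀ O1 O2, D.N O1 → D.N O2 →
  (∀ u G, D.Gn ρ G → p ∈ G → ((∃ q ∈ gs G ρ1, ZFSet.pair u q ∈ O1) ↔
    ∃ q ∈ gs G ρ2, ZFSet.pair u q ∈ O2)) →
  ∃ O, D.N O ∧ (∀ u q, ZFSet.pair u q ∈ O → q ∈ D.P (ρ1 ∩ ρ2)) ∧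
    ∀ u G, D.Gn ρ G → p ∈ G → ((∃ q ∈ gs G (ρ1 ∩ ρ2), ZFSet.pair u q ∈ O) ↔
      ∃ q ∈ gs G ρ1, ZFSet.pair u q ∈ O1)

/-- QRM: `R(ρ1) ∩ R(ρ2) = R(ρ1 ∩ ρ2)` -/
def T_QRM : Prop := ∀ D : Cx, D.Ok → ∀ ρ G ρ1 ρ2, D.N ρ → Cld D.L ρ → D.Gn ρ G → D.N ρ1 →
  D.N ρ2 → ρ1 ⊆ ρ → ρ2 ⊆ ρ → Tr ρ1 → Tr ρ2 → ∀ x, RR D ρ1 G x → RR D ρ2 G x →
  RR D (ρ1 ∩ ρ2) G x

/-- QRN: full names of reals of restrictions; monotonicity; the promises -/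
def T_QRN : Prop := ∀ D : Cx, D.Ok → ∀ ρ G s, D.N ρ → Cld D.L ρ → D.Gn ρ G → D.N s → s ⊆ ρ →
  Tr s →
  (∀ x, RR D s G x ↔ ∃ Y, D.N Y ∧ Nam D.L s Y ∧ ev G Y = x) ∧
  (∀ x, RR D s G x ↔ RR D s (gs G s) x) ∧ (∀ x, RR D s G x → RR D ρ G x) ∧
  (∀ x, RR D ρ G x ↔ D.W G x ∧ Rl x) ∧
  (∀ x y, RR D s G x → RR D s G y → RR D s G (prl x y)) ∧
  (∀ x y, Rl x → Rl y → RR D s G (prl x y) → RR D s G x ∧ RR D s G y) ∧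
  (∀ e : ℕ, RR D s G (kc e)) ∧
  (∀ s', D.N s' → s ⊆ s' → s' ⊆ ρ → Tr s' → ∀ x, RR D s G x → RR D s' G x) ∧
  (∀ i ∈ ρ, Rl (ev G (lZ i)) ∧ Rl (cg G i) ∧ Rl (prm G i)) ∧
  (∀ i ∈ s, RR D s G (ev G (lZ i)) ∧ RR D s G (cg G i) ∧ RR D s G (prm G i)) ∧
  (∀ i ∈ ρ, RR D s G (cg G i) → i ∈ s) ∧
  (∀ i ∈ ρ, RR D s G (prm G i) → i ∈ s) ∧
  (∀ i ∈ ρ, RR D s G (prl (kc 1) (prm G i)) → i ∈ s) ∧
  (∀ i ∈ ρ, ∀ j ∈ ρ, prm G i = prm G j → i = j) ∧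
  ∀ i ∈ s, prm (gs G s) i = prm G i ∧ ev (gs G s) (lZ i) = ev G (lZ i) ∧ cg (gs G s) i = cg G i

/-! ## Isomorphisms with the empty condition -/

/-- the kinds in `S` are less than `l` and at least `3` -/
def Sl (l : ℕ) (S : ℕ → Prop) : Prop := ∀ e, S e → 3 ≤ e ∧ e < l

/-- the views of the labels in `ρ` with kind in `S` are subsets of `ρ` -/
def Vws (S : ℕ → Prop) (ρ : V) : Prop := ∀ i ∈ ρ, ∀ e : ℕ, S e → kd i = nS e → vw i ⊆ ρ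

/-- QI1: maps, inverses, restrictions -/
def T_QI1 : Prop := ∀ D : Cx, D.Ok → ∀ l S π ρ ρ', Sl l S → Isl D l S π ρ ρ' →
  (ZFSet.IsFunc ρ ρ' π ∧ Ijo π ρ ∧ im π ρ = ρ' ∧ π ∈ D.H ∧ inv (inv π) = π ∧
    (Vws S ρ ∧ Vws S ρ') ∧ Isl D l S (inv π) ρ' ρ) ∧
  (∀ i ∈ ρ, app π i ∈ ρ' ∧ app (inv π) (app π i) = i ∧ lS (app π i) = im π (lS i) ∧
    lZ (app π i) = mvn π (lZ i)) ∧
  (∀ j ∈ ρ', app (inv π) j ∈ ρ ∧ app π (app (inv π) j) = j) ∧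
  (∀ l' (S' : ℕ → Prop), l' ≤ l → (∀ k, S' k → S k) → Isl D l' S' π ρ ρ') ∧
  ∀ s, D.N s → s ⊆ ρ → Tr s → Vws S s →
    Isl D l S (rst s π) s (im π s) ∧ (∀ i ∈ s, app (rst s π) i = app π i) ∧ im π s ⊆ ρ' ∧
    im (inv π) (im π s) = s ∧ inv (rst s π) = rst (im π s) (inv π) ∧
    (Idn π s → rst s π = idm s ∧ im π s = s)

/-- QI1i: the identity is an isomorphism; an isomorphism of `ρ` which is the identity -/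
def T_QI1i : Prop := ∀ D : Cx, D.Ok → ∀ l S ρ, Sl l S → CS D ρ → Vws S ρ →
  Isl D l S (idm ρ) ρ ρ ∧ inv (idm ρ) = idm ρ ∧ (∀ G, D.Gn ρ G → gi D (idm ρ) ρ G = G) ∧
  ∀ Y, D.N Y → Nam D.L ρ Y → mvn (idm ρ) Y = Y

/-- QI2: names -/
def T_QI2 : Prop := ∀ D : Cx, D.Ok → ∀ l S π ρ ρ', Sl l S → Isl D l S π ρ ρ' →
  ∀ s, D.N s → s ⊆ ρ → Tr s →
    (∀ Y, D.N Y → Nam D.L s Y → D.N (mvn π Y) ∧ Nam D.L (im π s) (mvn π Y) ∧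
      mvn (inv π) (mvn π Y) = Y ∧ mvn (rst s π) Y = mvn π Y ∧ (Idn π s → mvn π Y = Y) ∧
      ∀ π', (∀ i ∈ s, app π' i = app π i) → mvn π' Y = mvn π Y) ∧
    ∀ q ∈ D.P s, mv π q ∈ D.P (im π s) ∧ mv (inv π) (mv π q) = q ∧ mv (rst s π) q = mv π q ∧
      (Idn π s → mv π q = q) ∧ ∀ π', (∀ i ∈ s, app π' i = app π i) → mv π' q = mv π q

/-- QI3: generic filters -/
def T_QI3 : Prop := ∀ D : Cx, D.Ok → ∀ l S π ρ ρ', Sl l S → Isl D l S π ρ ρ' →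
  ∀ G, D.Gn ρ G → ∀ G', G' = gi D π ρ' G →
  D.Gn ρ' G' ∧ (∀ x, D.W G' x ↔ D.W G x) ∧ gi D (inv π) ρ G' = G ∧
  (∀ q ∈ D.P ρ, (mv π q ∈ G' ↔ q ∈ G)) ∧
  (∀ i ∈ ρ, cg G' (app π i) = cg G i ∧ ev G' (lZ (app π i)) = ev G (lZ i) ∧
    prm G' (app π i) = prm G i) ∧
  ∀ s, D.N s → s ⊆ ρ → Tr s → Tr (im π s) ∧
    gs G' (im π s) = gi D (rst s π) (im π s) (gs G s) ∧
    (∀ x, RR D (im π s) G' x ↔ RR D s G x) ∧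
    (∀ Y, D.N Y → Nam D.L s Y → ev G' (mvn π Y) = ev G Y) ∧
    (Idn π s → gs G' s = gs G s ∧ (∀ x, RR D s G' x ↔ RR D s G x) ∧
      ∀ Y, D.N Y → Nam D.L s Y → ev G' Y = ev G Y)

/-- QI3e: extensions of generic filters; `π` is an isomorphism of `ρ`, `ρ0 ⊆ ρ` -/
def T_QI3e : Prop := ∀ D : Cx, D.Ok → ∀ l S π ρ ρ', Sl l S → Isl D l S π ρ ρ' →
  ∀ s, D.N s → s ⊆ ρ → Tr s → Vws S s → ∀ G0, D.Gn s G0 → ∀ G', D.Gn ρ' G' →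
    gs G' (im π s) = gi D (rst s π) (im π s) G0 → gs (gi D (inv π) ρ G') s = G0

/-! ### Copies -/

/-- the kind of the copy -/
noncomputable def kct (l : ℕ) (e : V) : V := sel (∃ n : ℕ, 3 ≤ n ∧ n ≤ l ∧ e = nS n) e (nS 0)

/-- the cut of the time -/
noncomputable def tct (l : ℕ) (ζ e t : V) : V := sel (e = nS l ∧ t ∉ ζ) ζ t

/-- one step of the recursion for the copy; `f` is the copy map on `lS i ∪ vw i` -/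
noncomputable def cqs (l : ℕ) (L g ζ π0 ρ0 f i : V) : V :=
  sel (i ∈ ρ0) (app π0 i) (mk L (kct l (kd i)) (ZFSet.pair g i) (tct l ζ (kd i) (tm i))
    (im f (vw i)) (im f (lS i)) (mvn f (lZ i)))

theorem rank_vw_lt {k y : V} (h : y ∈ vw k) : y.rank < k.rank := by
  refine lt_of_lt_of_le (ZFSet.rank_lt_of_mem h) ?_
  unfold vw
  exact (TT.rank_snd_le _).trans ((TT.rank_snd_le _).trans ((TT.rank_snd_le _).trans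
    (TT.rank_lG_le _)))

/-- the copy of the label `i`: `app π0 i` for `i ∈ ρ0`, otherwise a label with tag `(g, i)`; labels
of kinds outside of `[3, l]` become labels of kind `0`; the times of the labels of kind `l` which are
not in `ζ` become `ζ` -/
noncomputable def cqy (l : ℕ) (L g ζ π0 ρ0 i : V) : V :=
  cqs l L g ζ π0 ρ0 (ZFSet.range fun y : {y // y ∈ lS i ∪ vw i} =>
    ZFSet.pair y.1 (cqy l L g ζ π0 ρ0 y.1)) i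
termination_by i.rank
decreasing_by exact (ZFSet.mem_union.1 y.2).elim (fun h => TT.rank_lS_lt h) fun h => rank_vw_lt h

theorem cqy_eq (l : ℕ) (L g ζ π0 ρ0 i : V) : cqy l L g ζ π0 ρ0 i =
    cqs l L g ζ π0 ρ0 (resS (lS i ∪ vw i) (cqy l L g ζ π0 ρ0)) i := by
  rw [cqy]
  rfl

/-- the copy map on `ρ1` -/
noncomputable def cqm (l : ℕ) (L g ζ π0 ρ0 ρ1 : V) : V := resS ρ1 (cqy l L g ζ π0 ρ0)

/-- the tag `g` is free for `X` -/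
def Frg (g X : V) : Prop := ∀ j ∈ X, ∀ x, tg j ≠ ZFSet.pair g x

/-- QI4d: definability of the copies -/
def T_QI4d : Prop :=
  Tm ZFm (fun _ v => kd (v 0)) ∧ Tm ZFm (fun _ v => tg (v 0)) ∧ Tm ZFm (fun _ v => tm (v 0)) ∧
  Tm ZFm (fun _ v => vw (v 0)) ∧ Tm ZFm (fun _ v => mvn (v 0) (v 1)) ∧
  Tm ZFm (fun _ v => mk (v 0) (v 1) (v 2) (v 3) (v 4) (v 5) (v 6)) ∧
  Tm ZFm (fun _ v => prm (v 0) (v 1)) ∧ Dfb ZFm (fun _ v => Gl (v 0) (v 1)) ∧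
  (∀ l : ℕ, Tm ZFm (fun _ v => cqy l (v 0) (v 1) (v 2) (v 3) (v 4) (v 5)) ∧
    Tm ZFm (fun _ v => cqm l (v 0) (v 1) (v 2) (v 3) (v 4) (v 5))) ∧
  Dfb ZFm (fun _ v => Frg (v 0) (v 1)) ∧ (∀ X, Frg X X) ∧ ∀ g X Y, Frg g Y → X ⊆ Y → Frg g X

/-- QI4: the copy is an isomorphism -/
def T_QI4 : Prop := ∀ D : Cx, D.Ok → ∀ l S π0 ρ0 ρ0' ρ1 g ζ, 3 ≤ l → Sl l S →
  Isl D l S π0 ρ0 ρ0' → CS D ρ1 → ρ0 ⊆ ρ1 → Vws S ρ1 → g ∈ D.H → Frg g ρ0' →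
  (ζ ∈ D.H ∨ ζ = D.H) → ∀ π ρ1', π = cqm l D.L g ζ π0 ρ0 ρ1 → ρ1' = im π ρ1 →
  Isl D l S π ρ1 ρ1' ∧ ρ0' ⊆ ρ1' ∧ rst ρ0 π = π0 ∧ (∀ i ∈ ρ0, app π i = app π0 i) ∧
  (∀ j ∈ ρ1', j ∉ ρ0' → ∃ i ∈ ρ1, i ∉ ρ0 ∧ j = app π i) ∧
  ∀ i ∈ ρ1, i ∉ ρ0 → app π i ∉ ρ0' ∧ tg (app π i) = ZFSet.pair g i ∧
    kd (app π i) = kct l (kd i) ∧ tm (app π i) = tct l ζ (kd i) (tm i) ∧
    (vw i ⊆ ρ1 → vw (app π i) = im π (vw i))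

/-- QTG: existence of a free tag -/
def T_QTG : Prop := ∀ D : Cx, D.Ok → ∀ X ∈ D.H, ∃ g ∈ D.H, ∀ v x, ∀ j ∈ X,
  tg j ≠ ZFSet.pair (ZFSet.pair g v) x

/-! ## Section 1 -/

/-- a family of copies over `ρ0`: `Π v` is an isomorphism of `ρ v`, the identity on `ρ0`; the copies
are disjoint outside of `ρ0` and from `Z` -/
structure Cps (D : Cx) (l : ℕ) (S : ℕ → Prop) (ζ ρ0 Z I R P : V) : Prop where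
  n : D.N P
  i : ∀ v ∈ I, Isl D l S (app P v) (app R v) (im (app P v) (app R v))
  d : ∀ v ∈ I, Idn (app P v) ρ0
  z : ∀ v ∈ I, ∀ i ∈ app R v, i ∉ ρ0 → app (app P v) i ∉ ρ0 ∧ app (app P v) i ∉ Z
  k : ∀ v ∈ I, ∀ i ∈ app R v, i ∉ ρ0 → kd (app (app P v) i) = kct l (kd i) ∧
    tm (app (app P v) i) = tct l ζ (kd i) (tm i) ∧
    (vw i ⊆ app R v → vw (app (app P v) i) = im (app P v) (vw i))
  j : ∀ v ∈ I, ∀ v' ∈ I, v ≠ v' → ∀ i ∈ im (app P v) (app R v), i ∈ im (app P v') (app R v') →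
    i ∈ ρ0

/-- QCF: families of copies -/
def T_QCF : Prop := ∀ D : Cx, D.Ok → ∀ l S ζ ρ0 Z I R, 3 ≤ l → Sl l S → CS D ρ0 → Vws S ρ0 →
  Z ∈ D.H → I ∈ D.H → D.N R → (∀ v ∈ I, CS D (app R v) ∧ ρ0 ⊆ app R v ∧ Vws S (app R v)) →
  (ζ ∈ D.H ∨ ζ = D.H) → ∃ P, Cps D l S ζ ρ0 Z I R P

/-- QC1 (1.1): copies of an object over a face (families) -/
def T_QC1 : Prop := ∀ (D : Cx) κ, Amb D κ → ∀ b : BS, b.Ok D κ → ∀ C Z I E ζ, C ∈ b.Ob →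
  Z ∈ D.H → I ∈ D.H → D.N E → (∀ v ∈ I, b.Le C (app E v)) → (ζ ∈ D.H ∨ ζ = D.H) →
  ∃ R P E', D.N R ∧ D.N E' ∧ (∀ v ∈ I, app R v = b.u (app E v)) ∧
    Cps D b.l b.S ζ (b.u C) Z I R P ∧
    ∀ v ∈ I, app E' v = b.T (app P v) (app E v) ∧ b.Le C (app E' v) ∧ app E' v ∈ b.Ob ∧
      b.u (app E' v) = im (app P v) (b.u (app E v))

/-- QC2 (1.2): amalgamation of generic filters -/
def T_QC2 : Prop := ∀ D : Cx, D.Ok → ∀ ρ0 ρ ρ' ρ1 G p, D.N ρ → D.N ρ' → D.N ρ1 → Cld D.L ρ1 →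
  ρ ⊆ ρ1 → ρ' ⊆ ρ1 → Tr ρ → Tr ρ' → ρ ∩ ρ' ⊆ ρ0 → D.Gn ρ G → p ∈ D.P ρ' → rst ρ0 p ∈ G →
  ∃ G1, D.Gn ρ1 G1 ∧ gs G1 ρ = G ∧ p ∈ G1

/-- QC3 (1.3): the generic filter contains one of infinitely many disjoint copies -/
def T_QC3 : Prop := ∀ D : Cx, D.Ok → ∀ ρ ρ1 G Q p0, D.N ρ → Cld D.L ρ → D.Gn ρ G → ρ1 ⊆ ρ →
  D.N ρ1 → Tr ρ1 → D.N Q → Q ⊆ D.P ρ → (∀ q ∈ Q, rst ρ1 q = p0) →
  (∀ q ∈ Q, ∀ q' ∈ Q, q ≠ q' → ∀ i ∈ dm q, i ∈ dm q' → i ∈ ρ1) → ¬ (Q : Set V).Finite →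
  p0 ∈ G → ∃ q ∈ Q, q ∈ G

end SE.UZ
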