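import Pool.Agent.H45.UZ.TarP

/-! # MP_f6fd33_lc: row LA, the amalgamation lemma (A) -/

set_option linter.unusedVariables false

open Ordinal Order Set
open scoped ZFSet

namespace SE.UZ

open SF

theorem pf_LA (hBA : T_BA) (hBBa : T_BBa) (hBJ : T_BJ) (hBL : T_BL) (hPWE : T_PWE)
    (hPSJ : T_PSJ) (hPOA : T_POA) (hPHA : T_PHA) (hPLW : T_PLW) (hPW2 : T_PW2) (hPAH : T_PAH)
    (hQRM : T_QRM) (hQRN : T_QRN) : T_LA := by
  intro D κ b σ hc hI hK I B h s Bp ha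
  have hA := hc.am
  have ho := hc.ok
  have hOk := hA.ok
  have hN : ∀ B ∈ b.Ob, D.N (b.u B) ∧ Cld D.L (b.u B) ∧ Tr (b.u B) := fun B hB =>
    ⟨(hBJ D hOk).2.2.1 _ (ho.cs B hB).h, (ho.cs B hB).c,
      (hBA.2.2.2.2.2.2 D.L _ (ho.cs B hB).c).1⟩
  have hBpO := ha.o.o
  obtain ⟨n0, c0, t0⟩ := hN Bp hBpO
  -- data of the members
  have hm : ∀ v ∈ I, D.N (b.u (app B v)) ∧ Cld D.L (b.u (app B v)) ∧ Tr (b.u (app B v)) ∧
      b.u (app B v) ⊆ b.u Bp ∧ b.Iw D (b.Wd D) (s v) (app B v) (app h v) := by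
    intro v hv
    obtain ⟨o1, -, s1⟩ := ho.leO _ _ (ha.le v hv)
    obtain ⟨n1, c1, t1⟩ := hN _ o1
    exact ⟨n1, c1, t1, s1, (hPWE b D _ _ _).1 (ha.w v hv)⟩
  have ha1 : ∀ v ∈ I, ∀ v' ∈ I, ∀ G, D.Gn (b.u Bp) G → ∀ X, RR D (b.u (app B v)) G X →
      RR D (b.u (app B v')) G X → ∀ e, e < s v → e < s v' → ∀ y,
      (Ent (app h v) G X y e ↔ Ent (app h v') G X y e) := by
    intro v hv v' hv' G hG X h1 h2 e he he' y
    obtain ⟨n1, c1, t1, s1, -⟩ := hm v hv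
    obtain ⟨n2, c2, t2, s2, -⟩ := hm v' hv'
    exact ha.a1 G hG v hv v' hv' X
      (hQRM D hOk (b.u Bp) G _ _ n0 c0 hG n1 n2 s1 s2 t1 t2 X h1 h2) y e he he'
  obtain ⟨hp, hHp, hE⟩ := hPAH D κ hA b ho σ hc.s I B h s Bp ha.nI ha.nB ha.nh ha.ns hBpO
    (fun v hv => ⟨ha.ls v hv, (hm v hv).2.2.2.2.wo, ha.le v hv⟩) ha1
  -- histories: values
  have hpP := hPHA D hOk _ _ hp σ n0 c0 n0 c0 (fun _ hx => hx) hHp
  have hvP : ∀ v ∈ I, _ := fun v hv => hPHA D hOk (b.u (app B v)) (b.u Bp) (app h v) (s v)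
    (hm v hv).1 (hm v hv).2.1 n0 c0 (hm v hv).2.2.2.1 (hm v hv).2.2.2.2.wo.hs
  have up : ∀ v ∈ I, ∀ G, D.Gn (b.u Bp) G → ∀ x, RR D (b.u (app B v)) G x →
      RR D (b.u Bp) G x := by
    intro v hv G hG x hx
    obtain ⟨n1, c1, t1, s1, -⟩ := hm v hv
    exact (hQRN D hOk (b.u Bp) G _ n0 c0 hG n1 s1 t1).2.2.1 x hx
  have al : ∀ G, D.Gn (b.u Bp) G → ∀ v ∈ I, ∀ X, RR D (b.u (app B v)) G X → ∀ e, e < s v →
      ∀ y, (Ent hp G X y e ↔ Ent (app h v) G X y e) := fun G hG v hv X hX e he y =>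
    (hE G hG X (up v hv G hG X hX) e (he.trans_le (ha.ls v hv))).1 v hv hX he y
  have hgs : ∀ v ∈ I, ∀ G, D.Gn (b.u Bp) G → D.Gn (b.u (app B v)) (gs G (b.u (app B v))) ∧
      ∀ x, (RR D (b.u (app B v)) G x ↔ RR D (b.u (app B v)) (gs G (b.u (app B v))) x) := by
    intro v hv G hG
    obtain ⟨n1, c1, t1, s1, -⟩ := hm v hv
    exact ⟨((hBL D hOk (b.u Bp) G n0 c0 hG).2 _ n1 s1 t1).1,
      (hQRN D hOk (b.u Bp) G _ n0 c0 hG n1 s1 t1).2.1⟩
  -- the face relation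
  have hLW : ∀ v ∈ I, b.LW D (s v) (app B v) (app h v) Bp hp := by
    intro v hv
    refine ⟨ha.le v hv, fun G hG X hX y e => ?_⟩
    constructor
    · rintro ⟨h1, h2⟩
      exact ⟨(al G hG v hv X hX e h2 y).2 h1, h2⟩
    · rintro ⟨h1, h2⟩
      exact ⟨(al G hG v hv X hX e h2 y).1 h1, h2⟩
  -- function
  have hf0 : ∀ G, D.Gn (b.u Bp) G → ∀ X y y' e e', e ≤ e' → Ent hp G X y e →
      Ent hp G X y' e' → y = y' ∧ e = e' := by
    intro G hG X y y' e e' hle h1 h2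
    have h3 := ((hpP.1 G hG).1 X y' e').2 h2
    by_cases hv : ∃ v ∈ I, RR D (b.u (app B v)) G X ∧ e' < s v
    · obtain ⟨v, hv, hX, hev⟩ := hv
      have h4 := (al G hG v hv X hX e (hle.trans_lt hev) y).1 h1
      have h5 := (al G hG v hv X hX e' hev y').1 h2
      have h6 := (((hvP v hv).1 G hG).1 X y e).1.1 h4
      have h7 := (((hvP v hv).1 G hG).1 X y' e').1.1 h5
      exact (hm v hv).2.2.2.2.wo.f _ (hgs v hv G hG).1 X y y' e e' h6 h7
    · have h4 : ∀ v ∈ I, e' < s v → ¬ RR D (b.u (app B v)) G X := fun v hv' h5 h6 =>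
        hv ⟨v, hv', h6, h5⟩
      obtain ⟨h5, h6⟩ := (hE G hG X h3.1 e' h3.2.2.1).2 h4
      by_cases hL : b.Ls D (b.Wd D) e'
      · exact absurd h2 (h5 hL y')
      · obtain ⟨h7, h8, h9⟩ := h6 hL
        have h10 := (h7.1 ⟨y', h2⟩).1
        rcases hle.lt_or_eq with h11 | h11
        · exact absurd ⟨y, e, ((hpP.2.1 e').2.2.2.2 G X y e).2 ⟨h1, h11⟩⟩ h10
        · subst h11
          exact ⟨h9 y y' h1 h2, rfl⟩
  have hf : ∀ G, D.Gn (b.u Bp) G → ∀ X y y' e e', Ent hp G X y e →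
      Ent hp G X y' e' → y = y' ∧ e = e' := by
    intro G hG X y y' e e' h1 h2
    rcases le_total e e' with h3 | h3
    · exact hf0 G hG X y y' e e' h3 h1 h2
    · obtain ⟨h4, h5⟩ := hf0 G hG X y' y e' e h3 h2 h1
      exact ⟨h4.symm, h5.symm⟩
  -- the conditions at stage e
  have core : ∀ e < σ, b.Wd D e Bp (hr hp e) → ∀ G, D.Gn (b.u Bp) G → ∀ X,
      RR D (b.u Bp) G X → (¬ b.Ls D (b.Wd D) e →
        ((∃ y, Ent hp G X y e) ↔ ¬ Dcc (hr hp e) G X ∧ b.Rg D (b.Wd D) e Bp (hr hp e) G X)) ∧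
      ∀ y, Ent hp G X y e → ¬ b.Kb D (b.Wd D) e Bp (hr hp e) G X y := by
    intro e he hW G hG X hX
    by_cases hv : ∃ v ∈ I, RR D (b.u (app B v)) G X ∧ e < s v
    · obtain ⟨v, hv, hXv, hev⟩ := hv
      have hW1 : b.Wd D e (app B v) (hr (app h v) e) :=
        (hPW2 D κ hA b ho).1 (s v) e _ _ hev.le (ha.w v hv)
      have hL1 : b.LW D e (app B v) (app h v) Bp hp :=
        (hPLW D κ hA b ho).2.2.1 (s v) e _ _ _ _ hev.le (hLW v hv)
      have hL2 : b.LW D e (app B v) (hr (app h v) e) Bp (hr hp e) :=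
        ((hPLW D κ hA b ho).2.2.2.1 (s v) σ e e e _ _ _ _ (hm v hv).2.2.2.2.wo.hs hHp le_rfl
          le_rfl).2 hL1
      obtain ⟨k1, k2, k3⟩ := hI e he _ _ _ _ hW1 hW hL2 G hG X hXv
      have hD : Dcc (hr (app h v) e) G X ↔ Dcc (hr hp e) G X :=
        (hPLW D κ hA b ho).2.2.2.2 (s v) σ e _ _ _ _ (hm v hv).2.2.2.2.wo.hs hHp hL1 G hG X
          hXv e le_rfl
      have hD2 : Dcc (hr (app h v) e) G X ↔
          Dcc (hr (app h v) e) (gs G (b.u (app B v))) X :=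
        ((hPHA D hOk (b.u (app B v)) (b.u Bp) (hr (app h v) e) (s v) (hm v hv).1 (hm v hv).2.1 n0
          c0 (hm v hv).2.2.2.1 ((hvP v hv).2.1 e).1).1 G hG).2 X
      have hXg := ((hgs v hv G hG).2 X).1 hXv
      constructor
      · intro hL
        have w2 := (hm v hv).2.2.2.2.w2 e hev hL _ (hgs v hv G hG).1 X hXg
        rw [← k3, ← hD, hD2, ← w2]
        refine exists_congr fun y => ?_
        rw [al G hG v hv X hXv e hev y]
        exact (((hvP v hv).1 G hG).1 X y e).1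
      · intro y hy
        have h4 := (al G hG v hv X hXv e hev y).1 hy
        have h5 := (((hvP v hv).1 G hG).1 X y e)
        have h6 := (hm v hv).2.2.2.2.w2' e hev _ (hgs v hv G hG).1 X y (h5.1.1 h4)
        rw [← k1 y (h5.2 h4).2.1]
        exact h6
    · have h4 : ∀ v ∈ I, e < s v → ¬ RR D (b.u (app B v)) G X := fun v hv' h5 h6 =>
        hv ⟨v, hv', h6, h5⟩
      obtain ⟨h5, h6⟩ := (hE G hG X hX e he).2 h4
      refine ⟨fun hL => (h6 hL).1, fun y hy => ?_⟩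
      by_cases hL : b.Ls D (b.Wd D) e
      · exact absurd hy (h5 hL y)
      · exact (h6 hL).2.1 y hy
  -- entries at L-stages come from members
  have hmem : ∀ e, b.Ls D (b.Wd D) e → ∀ G, D.Gn (b.u Bp) G → ∀ X y, Ent hp G X y e →
      ∃ v ∈ I, RR D (b.u (app B v)) G X ∧ e < s v ∧ Ent (app h v) G X y e := by
    intro e hL G hG X y hy
    have h3 := ((hpP.1 G hG).1 X y e).2 hy
    by_contra hv
    have h4 : ∀ v ∈ I, e < s v → ¬ RR D (b.u (app B v)) G X := fun v hv' h5 h6 =>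
      hv ⟨v, hv', h6, h5, (al G hG v hv' X h6 e h5 y).1 hy⟩
    exact ((hE G hG X h3.1 e h3.2.2.1).2 h4).1 hL y hy
  -- the induction
  have main : ∀ s' : Ordinal.{0}, s' ≤ σ → b.Wd D s' Bp (hr hp s') := by
    intro s'
    induction s' using WellFoundedLT.induction with
    | ind s' ih =>
    intro hs'
    have hEs : ∀ G X y e, Ent (hr hp s') G X y e ↔ Ent hp G X y e ∧ e < s' :=
      (hpP.2.1 s').2.2.2.2
    have hrr : ∀ e, e < s' → hr (hr hp s') e = hr hp e := fun e he =>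
      (hpP.2.1 s').2.2.2.1 e he.le
    rw [hPWE]
    refine ⟨⟨ha.o, (hpP.2.1 s').2.1, ?_⟩, ?_, ?_, ?_, ?_, ?_⟩
    · intro G hG X y y' e e' h1 h2
      exact hf G hG X y y' e e' ((hEs _ _ _ _).1 h1).1 ((hEs _ _ _ _).1 h2).1
    · -- w0
      intro j hj hco
      obtain ⟨v, hv, hsub, hle, ⟨h00, hH, h0e⟩, -⟩ := ha.a2 j hj hco
      obtain ⟨-, hju, -, nj, tj, cj, -⟩ := (hPOA D κ hA b ho Bp ha.o).2.2 j hj hco
      obtain ⟨n1, c1, t1, s1, -⟩ := hm v hv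
      have hmin : b.sj D (b.Wd D) s' (tm j) = min s' (b.sj D (b.Wd D) σ (tm j)) :=
        (hPSJ b D (b.Wd D)).2.2.2.2.2.2.2.2.1 s' σ (tm j) hs'
      have hP0 := hPHA D hOk (vw j) (b.u Bp) h00 _ nj cj.c n0 c0 hju hH
      have hP1 := hPHA D hOk (vw j) (b.u (app B v)) h00 _ nj cj.c n1 c1 hsub hH
      refine ⟨hr h00 (b.sj D (b.Wd D) s' (tm j)), (hP0.2.1 _).2.1, ?_⟩
      intro G hG X hX y e
      have hG1 := (hgs v hv G hG).1
      have hgg : gs (gs G (b.u (app B v))) (vw j) = gs G (vw j) :=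
        ((hBL D hOk (b.u Bp) G n0 c0 hG).2 _ n1 s1 t1).2.2.2.2.2.2 (vw j) hsub
      have hXj : RR D (vw j) (gs G (b.u (app B v))) X := by
        unfold RR at hX ⊢
        rw [hgg]
        exact hX
      have hXv : RR D (b.u (app B v)) G X :=
        (hQRN D hOk (b.u Bp) G (vw j) n0 c0 hG nj hju tj).2.2.2.2.2.2.2.1 _ n1 hsub s1 t1 X hX
      have e1 : Ent h00 G X y e ↔ Ent h00 (gs G (b.u (app B v))) X y e := by
        rw [((hP0.1 G hG).1 X y e).1, ((hP1.1 _ hG1).1 X y e).1, hgg]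
      have e2 := h0e _ hG1 X hXj y e
      have e3 : Ent (app h v) (gs G (b.u (app B v))) X y e ↔ Ent (app h v) G X y e :=
        (((hvP v hv).1 G hG).1 X y e).1.symm
      rw [(hP0.2.1 _).2.2.2.2 G X y e, hEs, e1, e2, e3, hmin]
      constructor
      · rintro ⟨⟨h1, h2⟩, h3⟩
        exact ⟨⟨(al G hG v hv X hXv e (h2.trans_le hle) y).2 h1, h3.trans_le (min_le_left _ _)⟩, h3⟩
      · rintro ⟨⟨h1, h2⟩, h3⟩
        have h4 := h3.trans_le (min_le_right _ _)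
        exact ⟨⟨(al G hG v hv X hXv e (h4.trans_le hle) y).1 h1, h4⟩, h3⟩
    · -- w1
      intro j hj hco G hG X y e hent heq
      obtain ⟨hent1, hes⟩ := (hEs _ _ _ _).1 hent
      have heσ := hes.trans_le hs'
      have hRX := ((hpP.1 G hG).1 X y e).2 hent1
      obtain ⟨-, hju, -, nj, tj, cj, -⟩ := (hPOA D κ hA b ho Bp ha.o).2.2 j hj hco
      have hlb := (ho.cs Bp hBpO).g j hj
      have hlS : lS j ⊆ vw j := (ha.o.v j hj hco).1
      have hjc := (hBA.2.2.2.2.2.2 D.L _ c0).2.1 j hj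
      have nH : D.N (lS j) := (hBBa.2.2.2.2.1).1 D.N hOk.zfc.toZFCm.toZFm (fun _ => j)
        (fun _ => (hBJ D hOk).2.2.1 _ ((ho.cs Bp hBpO).h |> fun hh => (hBJ D hOk).2.1.mem_trans hj hh))
      have nZ : D.N (lZ j) := (hBBa.2.2.2.2.2.2.1).1 D.N hOk.zfc.toZFCm.toZFm (fun _ => j)
        (fun _ => (hBJ D hOk).2.2.1 _ ((ho.cs Bp hBpO).h |> fun hh => (hBJ D hOk).2.1.mem_trans hj hh))
      have hR1 : RR D (lS j) G (prl X y) :=
        ((hQRN D hOk (b.u Bp) G (lS j) n0 c0 hG nH hjc.2.1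
          ((hBA.2.2.2.2.2.2 D.L _ hjc.2.2.1).1)).1 _).2 ⟨lZ j, nZ, hlb.lab.z, heq⟩
      have hR2 : RR D (vw j) G (prl X y) :=
        (hQRN D hOk (b.u Bp) G (lS j) n0 c0 hG nH hjc.2.1
          ((hBA.2.2.2.2.2.2 D.L _ hjc.2.2.1).1)).2.2.2.2.2.2.2.1 _ nj hlS hju tj _ hR1
      have hSn : Sn D G X y j :=
        (hQRN D hOk (b.u Bp) G (vw j) n0 c0 hG nj hju tj).2.2.2.2.2.1 X y hRX.1.2 hRX.2.1.2 hR2
      rcases lt_or_ge e (b.sj D (b.Wd D) σ (tm j)) with h1 | h1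
      · obtain ⟨v, hv, hsub, hle, -, hz⟩ := ha.a2 j hj hco
        obtain ⟨n1, c1, t1, s1, -⟩ := hm v hv
        have hXv : RR D (b.u (app B v)) G X :=
          (hQRN D hOk (b.u Bp) G (vw j) n0 c0 hG nj hju tj).2.2.2.2.2.2.2.1 _ n1 hsub s1 t1 X
            hSn.1
        exact hz G hG X y e h1 ((al G hG v hv X hXv e (h1.trans_le hle) y).1 hent1) heq
      · by_cases hL : b.Ls D (b.Wd D) e
        · obtain ⟨v, hv, -, -, h2⟩ := hmem e hL G hG X y hent1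
          exact ha.a3 G hG j hj hco v hv X y e h2 hL
            ((hPSJ b D (b.Wd D)).2.2.2.2.2.2.2.2.2.2.2 σ e (tm j) hL heσ h1) hSn
        · have h2 : b.Ls D (b.Wd D) (b.sj D (b.Wd D) σ (tm j)) :=
            ((hPSJ b D (b.Wd D)).2.2.2.2.2.2.2.1 σ (tm j) (h1.trans_lt heσ)).1
          have h3 : b.sj D (b.Wd D) σ (tm j) < e := by
            rcases h1.lt_or_eq with h3 | h3
            · exact h3
            · rw [h3] at h2
              exact absurd h2 hL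
          have h4 : b.sj D (b.Wd D) e (tm j) < e := by
            rw [(hPSJ b D (b.Wd D)).2.2.2.2.2.2.2.2.1 e σ (tm j) heσ.le]
            exact (min_le_right _ _).trans_lt h3
          have hWe := ih e hes heσ.le
          obtain ⟨h5, h6⟩ := core e heσ hWe G hG X hRX.1
          obtain ⟨h7, h8⟩ := (h5 hL).1 ⟨y, hent1⟩
          exact hK e heσ Bp (hr hp e) hWe G hG X y hRX.1 h7 h8 (h6 y hent1) j hj hco h4 hSn
    · -- w2
      intro e he hL G hG X hX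
      have heσ := he.trans_le hs'
      rw [hrr e he, ← (core e heσ (ih e he heσ.le) G hG X hX).1 hL]
      exact exists_congr fun y => (hEs G X y e).trans (and_iff_left he)
    · -- w2'
      intro e he G hG X y hy
      have heσ := he.trans_le hs'
      have h1 := ((hEs _ _ _ _).1 hy).1
      rw [hrr e he]
      exact (core e heσ (ih e he heσ.le) G hG X (((hpP.1 G hG).1 X y e).2 h1).1).2 y h1
    · -- w3
      intro e he hL G hG X y hy
      have h1 := ((hEs _ _ _ _).1 hy).1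
      obtain ⟨v, hv, hXv, hev, h2⟩ := hmem e hL G hG X y h1
      obtain ⟨n1, c1, t1, s1, hIw⟩ := hm v hv
      refine ⟨?_, fun j hj hco ht => ha.a3 G hG j hj hco v hv X y e h2 hL ht⟩
      rintro ⟨i, hi, hk, hXi⟩
      have hq := hQRN D hOk (b.u Bp) G _ n0 c0 hG n1 s1 t1
      have hi' : i ∈ b.u (app B v) := hq.2.2.2.2.2.2.2.2.2.2.2.2.1 i hi (by rw [← hXi]; exact hXv)
      have h3 := (((hvP v hv).1 G hG).1 X y e).1.1 h2
      refine (hIw.w3 e hev hL _ (hgs v hv G hG).1 X y h3).1 ⟨i, hi', hk, ?_⟩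
      rw [(hq.2.2.2.2.2.2.2.2.2.2.2.2.2.2 i hi').1]
      exact hXi
  refine ⟨hp, ?_, hLW⟩
  have h1 := main σ le_rfl
  rwa [(hpP.2.1 σ).2.2.1 le_rfl] at h1

end SE.UZ
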