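import Pool.Agent.H41.UZ.Dc
import Pool.Agent.H38.SE.All

/-!
# MP_f6fd33_lc: the library facts of `SE.UZ.Lb`
-/

namespace SE.UZ

theorem pf_Lb : Lb where
  AF := SE.All.aAF
  AG := SE.All.aAG
  AH := SE.All.aAH
  AI := SE.All.aAI
  BA := SE.All.aBA
  BBa := SE.All.aBBa
  BBb := SE.All.aBBb
  BBc := SE.All.aBBc
  BC := SE.All.aBC
  BD := SE.All.aBD
  BJ := SE.All.aBJ
  BK := SE.All.aBK
  BL := SE.All.aBL
  BM := SE.All.aBM
  BN := SE.All.aBN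
  BO := SE.All.aBO
  BP := SE.All.aBP
  BQ := SE.All.aBQ
  BR := SE.All.aBR
  BS := SE.All.aBS
  DS := CAA.All.aDS

end SE.UZ
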