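import Pool.Agent.H45.UZ.TarP
import Pool.Agent.H41.UZ.TarI

/-! # MP_f6fd33_lc: rows PDE and PAH (from the targets of the part I) -/

set_option linter.unusedVariables false

open Ordinal Order Set
open scoped ZFSet

namespace SE.UZ

open SF

/-- equality of values is decided -/
theorem dec_eq (hBBb : T_BBb) (hBJ : T_BJ) (hDS : CAA.T_DS) (D : Cx) (hD : D.Ok) (ρ : V)
    (hρ : D.N ρ) (hc : Cld D.L ρ) (hpo : IsPo (D.P ρ) (D.R ρ)) (X Y : V) (hX : D.N X)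
    (hY : D.N Y) : Dcd D ρ (fun G => ev G X = ev G Y) := by
  have h1 : Dfb ZFm (fun _ v => ev (v 0) (v 1) = ev (v 0) (v 2)) :=
    Dfb.eq (hBBb.2.2.2.2.1) ((hBBb.2.2.2.2.1).rn fun i => if i = 0 then 0 else 2)
  obtain ⟨O, hO, hO2⟩ := hDS _ h1
  obtain ⟨-, -, -, hP, -⟩ := hBJ D hD
  have hin : In D.N (cons X (cons Y fun _ => Y)) := by
    refine In.cons (In.cons (fun _ => hY) hY) hX
  have hz : ZFm D.N := hD.zfc.toZFCm.toZFm
  have h2 := hO2 D.N (D.P ρ) (D.R ρ) (cons X (cons Y fun _ => Y)) hz (hP ρ hρ).1 (hP ρ hρ).2 hpo hin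
  refine ⟨O D.N (cons (D.P ρ) (cons (D.R ρ) (cons X (cons Y fun _ => Y)))),
    hO.1 D.N hz _ ((hin.cons (hP ρ hρ).2).cons (hP ρ hρ).1), fun G hG => ?_⟩
  exact h2.2.1 G hG

theorem pf_PDE (hBA : T_BA) (hBBb : T_BBb) (hBD : T_BD) (hBJ : T_BJ) (hBR : T_BR)
    (hDS : CAA.T_DS) (hPOA : T_POA) (hID : T_ID) : T_PDE := by
  intro D κ ha b ho σ hs B hB h θ hh X Y hX hY nX nY
  obtain ⟨i1, i2, i3, i4, i5, i6, i7, i8, i9, i10, i11, i12⟩ :=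
    hID D κ b ha ho σ hs B hB h X Y hh.n hX hY
  have hc := ho.cs B hB
  refine ⟨i5, i4, i8, i9, i7, i1, i2, i3, i10, ?_, ?_, ?_⟩
  · exact dec_eq hBBb hBJ hDS D ha.ok (b.u B) ((hBJ D ha.ok).2.2.1 _ hc.h) hc.c
      (hBD.2.2.2.2.2.2.2 _ _) X Y hX hY
  · intro s ns hsub htr
    refine i11 s hsub ?_
    exact ⟨(hBR D ha.ok).1 s (b.u B) ns hc.h hsub, (hBA.2.2.2.2.2.2 D.L (b.u B) hc.c).2.2 s hsub htr,
      fun i hi => hc.g i (hsub hi)⟩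
  · intro hO
    obtain ⟨O, hO1, hO2⟩ := i12
    refine ⟨O, hO1, fun G hG => ?_⟩
    rw [← hO2 G hG]
    constructor
    · rintro ⟨j, hj, hc, hn⟩
      obtain ⟨-, h2, -, -, -, h6, -⟩ := (hPOA D κ ha b ho B hO).2.2 j hj hc
      exact ⟨j, hj, hc, h2, h6, hn⟩
    · rintro ⟨j, hj, hc, -, -, hn⟩
      exact ⟨j, hj, hc, hn⟩

theorem pf_PAH (hBA : T_BA) (hBJ : T_BJ) (hQRN : T_QRN) (hAH : T_AH) : T_PAH := by
  intro D κ ha b ho σ hs I B h s Bp nI nB nh ns hBp hw ha1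
  have hN : ∀ B ∈ b.Ob, D.N (b.u B) ∧ Cld D.L (b.u B) ∧ Tr (b.u B) := fun B hB =>
    ⟨(hBJ D ha.ok).2.2.1 _ (ho.cs B hB).h, (ho.cs B hB).c,
      (hBA.2.2.2.2.2.2 D.L _ (ho.cs B hB).c).1⟩
  have hAH1 : b.AH D σ I B h s Bp := by
    refine ⟨nI, nB, nh, ns, hBp, fun v hv => (hw v hv).1, fun v hv => ?_,
      fun v hv => (hw v hv).2.2, ?_⟩
    · have := (hw v hv).2.1
      exact ⟨this.hs, this.f⟩
    · intro G hG v hv v' hv' X hX y e he he'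
      obtain ⟨o1, -, s1⟩ := ho.leO _ _ (hw v hv).2.2
      obtain ⟨o2, -, s2⟩ := ho.leO _ _ (hw v' hv').2.2
      obtain ⟨n0, c0, t0⟩ := hN _ hBp
      obtain ⟨n1, c1, t1⟩ := hN _ o1
      obtain ⟨n2, c2, t2⟩ := hN _ o2
      have hT : Tr (b.u (app B v) ∩ b.u (app B v')) :=
        (hBA.2.2.2.2.2.2 D.L _ ((hBA.2.2.2.2.1 D.L _ _ c1 c2).2)).1
      have nI : D.N (b.u (app B v) ∩ b.u (app B v')) := by
        have : (b.u (app B v) ∩ b.u (app B v')) = (b.u (app B v)).sep fun x => x ∈ b.u (app B v') := by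
          ext x; simp [ZFSet.mem_inter, ZFSet.mem_sep]
        have hz : ZFm D.N := ha.ok.zfc.toZFCm.toZFm
        have h3 : Tm ZFm (fun _ v => (v 0).sep fun x => x ∈ v 1) :=
          Tm.sep (R := fun _ v => v 0 ∈ v 2) (Dfb.mem (Tm.var 0) (Tm.var 2)) (Tm.var 0)
        rw [this]
        exact h3.1 D.N hz (cons (b.u (app B v)) (cons (b.u (app B v')) fun _ => b.u (app B v')))
          (In.cons (In.cons (fun _ => n2) n2) n1)
      have hq := hQRN D ha.ok (b.u Bp) G _ n0 c0 hG nI (fun x hx => s1 (ZFSet.mem_inter.1 hx).1) hT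
      have hm := hq.2.2.2.2.2.2.2.1
      exact ha1 v hv v' hv' G hG X (hm _ n1 (fun x hx => (ZFSet.mem_inter.1 hx).1) s1 t1 X hX)
        (hm _ n2 (fun x hx => (ZFSet.mem_inter.1 hx).2) s2 t2 X hX) e he he' y
  obtain ⟨H, hH, hH2⟩ := hAH D κ b ha ho σ hs I B h s Bp hAH1
  refine ⟨H, hH, fun G hG X hX e he => ?_⟩
  obtain ⟨j1, j2, j3, j4⟩ := hH2 G hG
  refine ⟨fun v hv hXv hev y => j3 v hv X hXv y e hev, fun hno => ?_⟩
  obtain ⟨j5, j6⟩ := j4 X hX e he hno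
  exact ⟨j5, fun hl => ⟨(j6 hl).1, (j6 hl).2, fun y y' h1 h2 => j2 X y y' e h1 h2⟩⟩

end SE.UZ
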