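import Pool.Agent.H45.UZ.TarP

/-!
# MP_f6fd33_lc: targets for section 2 (the free functor F: level `l`, type `S` to level `l + 1`, type
`S`)

Paper proof: /team-store/H72_f6fd33_proof2.md; the definitions `BS.Of`, `BS.Sf`, `BS.F1`, `BS.F2`,
`BS.Fr` are in `Pool/Agent/H72/UZ/Tow.lean`.
-/

set_option linter.unusedVariables false

open Ordinal Order Set
open scoped ZFSet

namespace SE.UZ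

open SF

/-- QSE: secured facts depend only on the restriction of the filter; persistence -/
def T_QSE : Prop := ∀ (D : Cx) κ, Amb D κ → ∀ b : BS, b.Ok D κ → ∀ B ∈ b.Ob, ∀ ρ, D.N ρ →
  Cld D.L ρ → b.u B ⊆ ρ → ∀ G, D.Gn ρ G →
  (∀ a x, (b.Se B G a x ↔ b.Se B (gs G (b.u B)) a x) ∧
    (b.Se B G a x → RR D (b.u B) G a ∧ RR D (b.u B) G x) ∧
    (b.Ss D B G a x ↔ b.Ss D B (gs G (b.u B)) a x) ∧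
    (Rl x → b.Ss D B G a x → RR D (b.u B) G a ∧ RR D (b.u B) G x)) ∧
  (∀ X y, (b.Kil D B G X y ↔ b.Kil D B (gs G (b.u B)) X y) ∧
    (Rl y → b.Kil D B G X y → RR D (b.u B) G X ∧ RR D (b.u B) G y)) ∧
  (∀ C, b.Le C B → (∀ a x, RR D (b.u C) G a → RR D (b.u C) G x →
      (b.Se C G a x ↔ b.Se B G a x)) ∧
    (∀ a x, Rl x → b.Ss D C G a x → b.Ss D B G a x) ∧
    ∀ X y, Rl y → b.Kil D C G X y → b.Kil D B G X y) ∧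
  ∀ π ρ', Isl D b.l b.S π (b.u B) ρ' → D.Gn (b.u B) G →
    (∀ a x, b.Ss D B G a x ↔ b.Ss D (b.T π B) (gi D π ρ' G) a x) ∧
    ∀ X y, b.Kil D B G X y ↔ b.Kil D (b.T π B) (gi D π ρ' G) X y

/-! ## Objects of the free system -/

/-- FR1: closure properties of the class of objects -/
def T_FR1 : Prop := ∀ (D : Cx) κ, Amb D κ → ∀ b : BS, b.Ok D κ →
  (∀ C B, b.Le C B → b.Of D B → b.Of D C) ∧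
  (∀ I F, b.Ag D I F → (∀ v ∈ I, b.Of D (app F v)) → ∀ B ∈ b.Ob,
    (∀ v ∈ I, b.Le (app F v) B) → (∀ k ∈ b.u B, (∀ v ∈ I, k ∉ b.u (app F v)) → Kl b.l k) →
    b.Of D B) ∧
  (∀ B B' i, b.Of D B → b.Le B B' → i ∈ b.u B' → i ∉ b.u B → lS i ⊆ b.u B →
    (∀ k ∈ b.u B', k ∉ b.u B → k ≠ i → Kl b.l k) →
    (kd i = nS b.l → ∀ G, D.Gn (b.u B') G → ∀ k ∈ b.u B, kd k = nS (b.l + 1) →
      ev G (lZ i) ≠ prm G k) → b.Of D B') ∧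
  (∀ π B ρ', b.Of D B → Isl D (b.l + 1) b.S π (b.u B) ρ' → b.Of D (b.T π B)) ∧
  ∀ π C B ρ', b.Of D B → b.Le C B → Isl D b.l b.S π (b.u B) ρ' → Idn π (b.u C) →
    (∀ i ∈ b.u B, i ∉ b.u C → kd (app π i) = kct b.l (kd i)) → b.Of D (b.T π B)

/-- FR2 (2.1): invariance -/
def T_FR2 : Prop := ∀ (D : Cx) κ, Amb D κ → ∀ b : BS, b.Ok D κ → ∀ π B ρ', b.Of D B →
  Isl D (b.l + 1) b.S π (b.u B) ρ' → ∀ G, D.Gn (b.u B) G → ∀ a x,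
  (b.Sf D B G a x ↔ b.Sf D (b.T π B) (gi D π ρ' G) a x)

/-- FR5 (b5): absoluteness -/
def T_FR5 : Prop := ∀ (D : Cx) κ, Amb D κ → ∀ b : BS, b.Ok D κ → ∀ C B, b.Le C B → b.Of D B →
  ∀ G, D.Gn (b.u B) G → ∀ a x, RR D (b.u C) G a → RR D (b.u C) G x →
  (b.Sf D C (gs G (b.u C)) a x ↔ b.Sf D B G a x)

/-- FRm: monotonicity of richness -/
def T_FRm : Prop := ∀ (D : Cx) κ, Amb D κ → ∀ b : BS, b.Ok D κ → ∀ C0 C B, b.Le C0 C →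
  b.Of D C → b.Le C B → b.F1 D C B → b.F2 D C B → b.F1 D C0 B ∧ b.F2 D C0 B

/-! ## Bounds -/

/-- a set of tasks over `B1`: triples `(t, (B', r))` -/
structure BS.Tks (b : BS) (D : Cx) (B1 J E : V) : Prop where
  h : J ∈ D.H
  n : D.N E
  e : ∀ z ∈ E, ∃ t ∈ J, ∃ B' r, z = ZFSet.pair t (ZFSet.pair B' r) ∧ b.Of D B' ∧
    b.Le B1 B' ∧ r ∈ D.P (b.u B')

/-- FRX: generic families of disjoint copies -/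
def T_FRX : Prop := ∀ (D : Cx) κ, Amb D κ → ∀ b : BS, b.Ok D κ → ∀ B1, b.Of D B1 → ∀ J E,
  b.Tks D B1 J E → ∀ Z ∈ D.H, ∃ I F, I ∈ D.H ∧ D.N F ∧
    (∀ u ∈ I, b.Of D (app F u) ∧ b.Le B1 (app F u) ∧
      ∀ k ∈ b.u (app F u), k ∉ b.u B1 → Kl (b.l + 1) k ∧ k ∉ Z) ∧
    (∀ u ∈ I, ∀ u' ∈ I, u ≠ u' → b.u (app F u) ∩ b.u (app F u') = b.u B1) ∧
    ∀ ρ, D.N ρ → Cld D.L ρ → (∀ u ∈ I, b.u (app F u) ⊆ ρ) → b.u B1 ⊆ ρ → ∀ G, D.Gn ρ G →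
      ∀ t B' r, ZFSet.pair t (ZFSet.pair B' r) ∈ E → rst (b.u B1) r ∈ G →
        ∃ B2 r2, ZFSet.pair t (ZFSet.pair B2 r2) ∈ E ∧ ∃ u ∈ I, ∃ π,
          Isl D b.l b.S π (b.u B2) (b.u (app F u)) ∧ Idn π (b.u B1) ∧
          app F u = b.T π B2 ∧ mv π r2 ∈ G

/-- the tasks (f1): pairs of names `a`, `x`; `r` forces the `Σ` fact -/
def BS.T1 (b : BS) (D : Cx) (B1 z : V) : Prop := ∃ a x B' r,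
  (D.N a ∧ Nam D.L (b.u B1) a) ∧ (D.N x ∧ Nam D.L (b.u B1) x) ∧ b.Of D B' ∧ b.Le B1 B' ∧
  r ∈ D.P (b.u B') ∧ z = ZFSet.pair (ZFSet.pair a x) (ZFSet.pair B' r) ∧
  ∀ G, D.Gn (b.u B') G → r ∈ G → b.Ss D B' G (ev G a) (ev G x)

/-- the tasks (f2): names `v`; the real `v` is coded in `B'` if it is not a promise -/
def BS.T2 (b : BS) (D : Cx) (B1 z : V) : Prop := ∃ v B',
  (D.N v ∧ Nam D.L (b.u B1) v) ∧ b.Of D B' ∧ b.Le B1 B' ∧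
  z = ZFSet.pair v (ZFSet.pair B' ∅) ∧ ∃ i ∈ b.u B', kd i = nS b.l ∧
  ∀ G, D.Gn (b.u B') G → (∀ k ∈ b.u B1, kd k = nS (b.l + 1) → ev G v ≠ prm G k) →
    ev G (lZ i) = ev G v

/-- FRE: the sets of tasks are in the ground model -/
def T_FRE : Prop := ∀ (D : Cx) κ, Amb D κ → ∀ b : BS, b.Ok D κ → ∀ B1, b.Of D B1 →
  (∃ E, D.N E ∧ ∀ z, z ∈ E ↔ b.T1 D B1 z) ∧ ∃ E, D.N E ∧ ∀ z, z ∈ E ↔ b.T2 D B1 z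

/-- FRL: a label for a real which is not a promise -/
def T_FRL : Prop := ∀ (D : Cx) κ, Amb D κ → ∀ b : BS, b.Ok D κ → ∀ B1, b.Of D B1 → ∀ v, D.N v →
  Nam D.L (b.u B1) v → ∃ B', b.T2 D B1 (ZFSet.pair v (ZFSet.pair B' ∅))

/-- FR3a: a rich object over one object -/
def T_FR3a : Prop := ∀ (D : Cx) κ, Amb D κ → ∀ b : BS, b.Ok D κ → ∀ B1, b.Of D B1 → ∀ Z ∈ D.H,
  ∃ B, b.Of D B ∧ b.Ri B1 B ∧ b.F1 D B1 B ∧ b.F2 D B1 B ∧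
    ∀ k ∈ b.u B, k ∉ b.u B1 → Kl (b.l + 1) k ∧ k ∉ Z

/-- FR3 (b3): bounds -/
def T_FR3 : Prop := ∀ (D : Cx) κ, Amb D κ → ∀ b : BS, b.Ok D κ → ∀ I F, b.Ag D I F →
  (∀ v ∈ I, b.Of D (app F v)) → ∀ Z ∈ D.H, ∃ B, b.Of D B ∧
    (∀ v ∈ I, b.Ri (app F v) B ∧ b.F1 D (app F v) B ∧ b.F2 D (app F v) B) ∧
    ∀ k ∈ b.u B, (∀ v ∈ I, k ∉ b.u (app F v)) → Kl (b.l + 1) k ∧ k ∉ Z

/-! ## The sets of the free system -/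

/-- FRd: the classes of the free system are sets of the ground model, `Sf` is decided -/
def T_FRd : Prop := ∀ (D : Cx) κ, Amb D κ → ∀ b : BS, b.Ok D κ →
  (∃ X, D.N X ∧ ∀ B, B ∈ X ↔ b.Of D B) ∧
  (∃ X, D.N X ∧ ∀ z, z ∈ X ↔ ∃ C B, b.Of D C ∧ b.Of D B ∧ b.Ri C B ∧ b.F1 D C B ∧
    b.F2 D C B ∧ z = ZFSet.pair C B) ∧
  (∃ X, D.N X ∧ ∀ z, z ∈ X ↔ b.Sg D z) ∧
  ∀ B, b.Of D B → ∀ a x, D.N a → Nam D.L (b.u B) a → D.N x → Nam D.L (b.u B) x →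
    Dcd D (b.u B) (fun G => b.Sf D B G (ev G a) (ev G x))

/-- FRN: the components of the free system -/
def T_FRN : Prop := ∀ (D : Cx) κ, Amb D κ → ∀ b : BS, b.Ok D κ → ∀ b', b' = b.Fr D →
  (b'.l = b.l + 1 ∧ b'.S = b.S) ∧
  (D.N b'.Ob ∧ D.N b'.U ∧ D.N b'.le ∧ D.N b'.Rc ∧ D.N b'.tr ∧ D.N b'.Sc) ∧
  (∀ B, B ∈ b'.Ob ↔ b.Of D B) ∧ (∀ B, b.Of D B → b'.u B = b.u B) ∧
  (∀ C B, b'.Le C B ↔ b.Of D C ∧ b.Of D B ∧ b.Le C B) ∧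
  (∀ C B, b'.Ri C B ↔ b.Of D C ∧ b.Of D B ∧ b.Ri C B ∧ b.F1 D C B ∧ b.F2 D C B) ∧
  (∀ π B ρ', b.Of D B → Isl D (b.l + 1) b.S π (b.u B) ρ' → b'.T π B = b.T π B) ∧
  (∀ B p a x, ZFSet.pair B (ZFSet.pair p (ZFSet.pair a x)) ∈ b'.Sc → b.Of D B ∧
    p ∈ D.P (b.u B) ∧ (D.N a ∧ Nam D.L (b.u B) a) ∧ D.N x ∧ Nam D.L (b.u B) x) ∧
  ∀ B, b.Of D B → ∀ ρ, D.N ρ → Cld D.L ρ → b.u B ⊆ ρ → ∀ G, D.Gn ρ G → ∀ a x,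
    (b'.Se B G a x ↔ RR D (b.u B) G a ∧ RR D (b.u B) G x ∧ b.Sf D B (gs G (b.u B)) a x)

/-! ## The axioms for the free system -/

/-- FRa: all axioms except (b3), (b4), (b6) -/
def T_FRa : Prop := ∀ (D : Cx) κ, Amb D κ → ∀ b : BS, b.Ok D κ → ∀ b', b' = b.Fr D →
  (3 ≤ b'.l ∧ ∀ k, b'.S k → 3 ≤ k ∧ k + 2 ≤ b'.l) ∧
  (∀ B ∈ b'.Ob, CS D (b'.u B)) ∧
  (∀ B ∈ b'.Ob, ∀ i ∈ b'.u B, ∀ e, b'.S e → kd i = nS e → vw i ⊆ b'.u B) ∧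
  (∀ C B, b'.Le C B → C ∈ b'.Ob ∧ B ∈ b'.Ob ∧ b'.u C ⊆ b'.u B) ∧
  (∀ B ∈ b'.Ob, b'.Le B B) ∧ (∀ C B A, b'.Le C B → b'.Le B A → b'.Le C A) ∧
  (∀ C C' B, b'.Le C B → b'.Le C' B → b'.u C ⊆ b'.u C' → b'.Le C C') ∧
  (∀ C C' B, b'.Le C B → b'.Le C' B → ∃ E, b'.Le E B ∧ b'.u E = b'.u C ∩ b'.u C') ∧
  (∀ B ∈ b'.Ob, ∀ π ρ', Isl D b'.l b'.S π (b'.u B) ρ' → b'.T π B ∈ b'.Ob ∧
    b'.u (b'.T π B) = ρ' ∧ b'.T (inv π) (b'.T π B) = B ∧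
    ∀ C, b'.Le C B → b'.Le (b'.T (rst (b'.u C) π) C) (b'.T π B)) ∧
  (∀ B ∈ b'.Ob, b'.T (idm (b'.u B)) B = B) ∧
  (∀ B ∈ b'.Ob, ∀ π ρ', Isl D b'.l b'.S π (b'.u B) ρ' → ∀ G, D.Gn (b'.u B) G → ∀ a x,
    b'.Se B G a x ↔ b'.Se (b'.T π B) (gi D π ρ' G) a x) ∧
  (∀ C B, b'.Ri C B → b'.Le C B ∧ ∀ C0, b'.Le C0 C → b'.Ri C0 B) ∧
  (∀ B p a x, ZFSet.pair B (ZFSet.pair p (ZFSet.pair a x)) ∈ b'.Sc →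
    B ∈ b'.Ob ∧ p ∈ D.P (b'.u B) ∧ (D.N a ∧ Nam D.L (b'.u B) a) ∧ D.N x ∧
      Nam D.L (b'.u B) x) ∧
  ∀ C B, b'.Le C B → ∀ G, D.Gn (b'.u B) G → ∀ a x, RR D (b'.u C) G a → RR D (b'.u C) G x →
    (b'.Se C G a x ↔ b'.Se B G a x)

/-- FR4: (b3) and (b4) for the free system -/
def T_FR4 : Prop := ∀ (D : Cx) κ, Amb D κ → ∀ b : BS, b.Ok D κ → ∀ b', b' = b.Fr D →
  (∀ I F, b'.Ag D I F → ∀ Z ∈ D.H, ∃ B ∈ b'.Ob, (∀ v ∈ I, b'.Ri (app F v) B) ∧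
    ∀ k ∈ b'.u B, (∀ v ∈ I, k ∉ b'.u (app F v)) → Kl b'.l k ∧ k ∉ Z) ∧
  ∀ B ∈ b'.Ob, ∀ Y, D.N Y → Nam D.L (b'.u B) Y → ∀ e : ℕ, e = 0 ∨ b'.l ≤ e →
    ∀ τ ∈ D.H, ∀ u ∈ D.H, ∀ Z ∈ D.H, ∃ B' i, b'.Le B B' ∧ i ∈ b'.u B' ∧ i ∉ b'.u B ∧ i ∉ Z ∧
      kd i = nS e ∧ tm i = τ ∧ vw i = u ∧ lS i ⊆ b'.u B ∧
      (∀ G, D.Gn (b'.u B') G → ev G (lZ i) = ev G Y) ∧
      ∀ k ∈ b'.u B', k ∉ b'.u B → k ≠ i → Kl b'.l k ∧ k ∉ Z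

/-- FR6: (b6) for the free system -/
def T_FR6 : Prop := ∀ (D : Cx) κ, Amb D κ → ∀ b : BS, b.Ok D κ → ∀ b', b' = b.Fr D →
  ∀ F, b'.Ch D κ F → b.Ch D κ F ∧ b'.un κ F = b.un κ F ∧ ∀ G, D.Gn (b'.un κ F) G →
    (∀ ξ ∈ κ, ∀ a x, RR D (b'.u (app F ξ)) G a → RR D (b'.u (app F ξ)) G x →
      (¬ SgH (D.W G) (b'.l - 1) a x ↔ b'.Se (app F ξ) G a x)) ∧
    (∀ z z', D.W G z → Rl z → D.W G z' → Rl z' →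
      (Dk (D.W G) D.L (b'.l - 3) (prl z z') ↔
        ∃ i ∈ b'.un κ F, kd i = nS b'.l ∧ ev G (lZ i) = prl z z')) ∧
    ∀ k, b'.S k → UniH (D.W G) k

/-- the free system is a base system -/
def T_FrOk : Prop := ∀ (D : Cx) κ, Amb D κ → ∀ b : BS, b.Ok D κ → (b.Fr D).Ok D κ

end SE.UZ
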