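import Pool.Agent.H1.CA.AllF
import Pool.Agent.H1.SE.UA
import Pool.Agent.H1.SE.UB
import Pool.Agent.H1.SE.UC
import Pool.Agent.H1.SE.UF
import Pool.Agent.H1.UZ.PCW
import Pool.Agent.H1.UZ.PHB
import Pool.Agent.H1.UZ.QI3
import Pool.Agent.H1.UZ.W3
import Pool.Agent.H1.UZ.W3b
import Pool.Agent.H1.UZ.X1
import Pool.Agent.H12.SE.TBc
import Pool.Agent.H13.UZ.LF
import Pool.Agent.H13.UZ.PTX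
import Pool.Agent.H13.UZ.Q6
import Pool.Agent.H14.SE.BA
import Pool.Agent.H14.UZ.RT
import Pool.Agent.H16.SE.TCb
import Pool.Agent.H16.UZ.QC
import Pool.Agent.H18.UZ.Q4
import Pool.Agent.H18.UZ.Q4a
import Pool.Agent.H19.UZ.CHO
import Pool.Agent.H19.UZ.PCC
import Pool.Agent.H19.UZ.PCD
import Pool.Agent.H19.UZ.PCE
import Pool.Agent.H19.UZ.PTJ
import Pool.Agent.H19.UZ.W0
import Pool.Agent.H19.UZ.W0n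
import Pool.Agent.H20.UZ.PSJ
import Pool.Agent.H20.UZ.PWE
import Pool.Agent.H20.UZ.Y13
import Pool.Agent.H20.UZ.Y2
import Pool.Agent.H20.UZ.Y3
import Pool.Agent.H20.UZ.Y8a
import Pool.Agent.H21.UZ.F5
import Pool.Agent.H21.UZ.FR1
import Pool.Agent.H21.UZ.LI
import Pool.Agent.H21.UZ.PCS
import Pool.Agent.H21.UZ.PTY
import Pool.Agent.H21.UZ.PTZ
import Pool.Agent.H21.UZ.SM
import Pool.Agent.H23.UZ.FB4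
import Pool.Agent.H23.UZ.Y11
import Pool.Agent.H28.UZ.FR3a
import Pool.Agent.H28.UZ.FRX
import Pool.Agent.H3.CA.DF
import Pool.Agent.H3.SE.TA
import Pool.Agent.H3.UZ.FB5
import Pool.Agent.H3.UZ.Q1c
import Pool.Agent.H30.UZ.A
import Pool.Agent.H30.UZ.A1
import Pool.Agent.H30.UZ.CPF
import Pool.Agent.H33.SE.TCd
import Pool.Agent.H33.SE.TDa
import Pool.Agent.H33.UZ.FR2
import Pool.Agent.H33.UZ.FR5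
import Pool.Agent.H33.UZ.FRm
import Pool.Agent.H33.UZ.LL
import Pool.Agent.H33.UZ.LV
import Pool.Agent.H33.UZ.PCG
import Pool.Agent.H33.UZ.Q1b
import Pool.Agent.H33.UZ.QC3
import Pool.Agent.H33.UZ.QTG
import Pool.Agent.H33.UZ.Y4
import Pool.Agent.H34.UZ.FB3
import Pool.Agent.H35.SE.TBe
import Pool.Agent.H38.SE.All
import Pool.Agent.H38.UZ.X4
import Pool.Agent.H41.UZ.Dc
import Pool.Agent.H41.UZ.UJ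
import Pool.Agent.H41.UZ.UM
import Pool.Agent.H42.SE.TBa
import Pool.Agent.H44.UZ.QD
import Pool.Agent.H45.UZ.LA
import Pool.Agent.H45.UZ.LbA
import Pool.Agent.H45.UZ.PDE
import Pool.Agent.H45.UZ.Y12
import Pool.Agent.H48.UZ.PTU
import Pool.Agent.H49.UZ.QI1
import Pool.Agent.H49.UZ.QRN
import Pool.Agent.H5.UZ.FRE
import Pool.Agent.H5.UZ.FRd
import Pool.Agent.H5.UZ.IL
import Pool.Agent.H5.UZ.NT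
import Pool.Agent.H5.UZ.QI1i
import Pool.Agent.H5.UZ.QI4d
import Pool.Agent.H5.UZ.RC
import Pool.Agent.H5.UZ.RH
import Pool.Agent.H5.UZ.X2
import Pool.Agent.H5.UZ.Y14
import Pool.Agent.H5.UZ.Y6
import Pool.Agent.H5.UZ.Y7
import Pool.Agent.H50.SE.TCc
import Pool.Agent.H50.UZ.QA
import Pool.Agent.H50.UZ.ZK
import Pool.Agent.H51.UZ.Q1
import Pool.Agent.H56.UZ.AM2
import Pool.Agent.H56.UZ.Y5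
import Pool.Agent.H58.UZ.PHA
import Pool.Agent.H58.UZ.POB
import Pool.Agent.H58.UZ.POC
import Pool.Agent.H60.SE.UE
import Pool.Agent.H64.UZ.W3a
import Pool.Agent.H65.CA.DM
import Pool.Agent.H66.UZ.FB6
import Pool.Agent.H66.UZ.FB7
import Pool.Agent.H67.UZ.AM3
import Pool.Agent.H67.UZ.QRM
import Pool.Agent.H67.UZ.X3
import Pool.Agent.H67.UZ.Y1
import Pool.Agent.H67.UZ.ZW
import Pool.Agent.H69.UZ.Q8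
import Pool.Agent.H69.UZ.QE
import Pool.Agent.H69.UZ.QI4
import Pool.Agent.H7.UZ.AM4
import Pool.Agent.H7.UZ.LK
import Pool.Agent.H7.UZ.LU
import Pool.Agent.H70.UZ.PAS
import Pool.Agent.H70.UZ.QF4
import Pool.Agent.H71.SE.TCa
import Pool.Agent.H72.UZ.FinG
import Pool.Agent.H72.UZ.L4
import Pool.Agent.H72.UZ.PrOk
import Pool.Agent.H72.UZ.Y10
import Pool.Agent.H74.UZ.ADD
import Pool.Agent.H74.UZ.QI2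
import Pool.Agent.H75.UZ.W1
import Pool.Agent.H75.UZ.W2
import Pool.Agent.H75.UZ.W2a
import Pool.Agent.H77.UZ.PLW
import Pool.Agent.H77.UZ.ZR
import Pool.Agent.H80.UZ.Y8
import Pool.Agent.H80.UZ.Y9
import Pool.Agent.H85.UZ.FR3
import Pool.Agent.H85.UZ.POA
import Pool.Agent.H85.UZ.Y8b
import Pool.Agent.H85.UZ.ZE
import Pool.Agent.H86.UZ.FrOk
import Pool.Agent.H86.UZ.PCF
import Pool.Agent.H86.UZ.PDB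
import Pool.Agent.H86.UZ.PW2
import Pool.Agent.H87.SE.TBb
import Pool.Agent.H87.SE.TBd
import Pool.Agent.H87.UZ.PCH
import Pool.Agent.H89.UZ.FR4
import Pool.Agent.H89.UZ.QC2
import Pool.Agent.H9.CA.All
import Pool.Agent.H9.SE.AllK
import Pool.Agent.H9.SE.AllL
import Pool.Agent.H9.UZ.AM1
import Pool.Agent.H9.UZ.AMB
import Pool.Agent.H9.UZ.FA1
import Pool.Agent.H9.UZ.FAP
import Pool.Agent.H9.UZ.FB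
import Pool.Agent.H9.UZ.FB1
import Pool.Agent.H9.UZ.FB2
import Pool.Agent.H90.CA.DJ
import Pool.Agent.H90.UZ.FRN
import Pool.Agent.H90.UZ.FRa
import Pool.Agent.H90.UZ.QSE
import Pool.Agent.H91.UZ.Q1a
import Pool.Agent.H91.UZ.Q3
import Pool.Agent.H91.UZ.QC1
import Pool.Agent.H91.UZ.QCF
import Pool.Agent.H92.UZ.PW3
import Pool.Agent.H92.UZ.Q2
import Pool.Agent.H92.UZ.Q7
import Pool.Agent.H94.UZ.FR6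
import Pool.Agent.H94.UZ.FRL
import Pool.Agent.H97.UZ.Q5
import Pool.Agent.H97.UZ.QB
import Pool.Agent.H99.UZ.POT

/-!
# MP_f6fd33_lc: assembly (generated): all targets which are used in the main theorem
-/

namespace SE.UZ.All

theorem SE_T_AG : SE.T_AG :=
  _root_.SE.UZ.Lb.AG _root_.SE.UZ.pf_Lb

theorem a_ID : SE.UZ.T_ID :=
  _root_.SE.UZ.pf_ID _root_.SE.UZ.pf_Lb

theorem CAA_T_DS : CAA.T_DS :=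
  _root_.SE.UZ.Lb.DS _root_.SE.UZ.pf_Lb

theorem SE_T_BO : SE.T_BO :=
  _root_.SE.UZ.Lb.BO _root_.SE.UZ.pf_Lb

theorem SE_T_BP : SE.T_BP :=
  _root_.SE.UZ.Lb.BP _root_.SE.UZ.pf_Lb

theorem SE_T_BN : SE.T_BN :=
  _root_.SE.UZ.Lb.BN _root_.SE.UZ.pf_Lb

theorem a_PCD : SE.UZ.T_PCD :=
  _root_.SE.UZ.pf_PCD _root_.SE.All.aKB _root_.SE.All.aAF SE_T_AG

theorem a_FRd : SE.UZ.T_FRd :=
  _root_.SE.UZ.pf_FRd _root_.SE.UZ.pf_Lb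

theorem SE_T_BJ : SE.T_BJ :=
  _root_.SE.UZ.Lb.BJ _root_.SE.UZ.pf_Lb

theorem a_PDB : SE.UZ.T_PDB :=
  _root_.SE.UZ.pf_PDB SE_T_BJ _root_.SE.All.aBL _root_.SE.All.aZX

theorem SE_T_BBa : SE.T_BBa :=
  _root_.SE.UZ.Lb.BBa _root_.SE.UZ.pf_Lb

theorem SE_T_AI : SE.T_AI :=
  _root_.SE.UZ.Lb.AI _root_.SE.UZ.pf_Lb

theorem SE_T_TA : SE.T_TA :=
  _root_.SE.t_ta SE_T_BBa _root_.SE.All.aBBc

theorem a_IWd : SE.UZ.T_IWd :=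
  _root_.SE.UZ.pf_IWd _root_.SE.UZ.pf_Lb

theorem a_QRN : SE.UZ.T_QRN :=
  _root_.SE.UZ.pf_QRN _root_.SE.pf_BA SE_T_BJ _root_.SE.All.aBK _root_.SE.All.aBL SE_T_BO SE_T_BP
    _root_.SE.All.aZY _root_.SE.All.aAH SE_T_AI

theorem a_POC : SE.UZ.T_POC :=
  _root_.SE.UZ.pf_POC _root_.SE.UZ.pf_POA

theorem a_QI4d : SE.UZ.T_QI4d :=
  _root_.SE.UZ.pf_QI4d SE_T_AI SE_T_BBa _root_.SE.All.aBBb _root_.SE.All.aBBc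

theorem a_QF4 : SE.UZ.T_QF4 :=
  _root_.SE.UZ.pf_QF4 _root_.SE.pf_BA SE_T_BBa _root_.SE.All.aBC _root_.SE.All.aBD
    _root_.SE.All.aBF SE_T_BJ _root_.SE.All.aBL

theorem a_F5 : SE.UZ.T_F5 :=
  _root_.SE.UZ.pf_F5 _root_.SE.All.aAB _root_.SE.All.aAC _root_.SE.All.aAD _root_.SE.All.aAF
    SE_T_AG _root_.SE.pf_BA _root_.SE.All.aBBb _root_.SE.All.aBC _root_.SE.All.aBD
    _root_.SE.All.aBE SE_T_BJ _root_.SE.All.aBK _root_.SE.All.aBL _root_.SE.All.aBM SE_T_BN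
    SE_T_BO _root_.SE.All.aBQ _root_.SE.All.aBR

theorem a_IW : SE.UZ.T_IW :=
  _root_.SE.UZ.pf_IW _root_.SE.UZ.pf_Lb

theorem a_FB4 : SE.UZ.T_FB4 :=
  _root_.SE.UZ.H23.pf_FB4 _root_.SE.pf_BA _root_.SE.All.aBR SE_T_BO

theorem a_FRE : SE.UZ.T_FRE :=
  _root_.SE.UZ.pf_FRE _root_.SE.UZ.pf_Lb

theorem a_QRM : SE.UZ.T_QRM :=
  _root_.SE.UZ.t_qrm a_QF4 _root_.SE.All.aBK _root_.SE.All.aBL SE_T_BO SE_T_BJ _root_.SE.All.aBD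
    _root_.SE.All.aBBb CAA_T_DS _root_.SE.All.aAF

theorem SE_T_TBc : SE.T_TBc :=
  _root_.SE.t_tbc _root_.SE.All.aBC SE_T_BJ _root_.SE.t_tba SE_T_TA

theorem a_FB6 : SE.UZ.T_FB6 :=
  _root_.SE.UZ.pf_FB6 _root_.SE.All.aCC _root_.SE.pf_BA _root_.SE.All.aBK _root_.SE.All.aBL
    SE_T_BO SE_T_BJ _root_.SE.All.aAH

theorem a_PTX : SE.UZ.T_PTX :=
  _root_.SE.UZ.pf_PTX _root_.SE.pf_UA _root_.SE.pf_UC SE_T_AG _root_.SE.All.aAH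

theorem SE_T_UB : SE.T_UB :=
  _root_.SE.pf_UB _root_.SE.pf_UA

theorem a_PCS : SE.UZ.T_PCS :=
  _root_.SE.UZ.pf_PCS _root_.SE.All.aSHO

theorem a_PDE : SE.UZ.T_PDE :=
  _root_.SE.UZ.pf_PDE _root_.SE.pf_BA _root_.SE.All.aBBb _root_.SE.All.aBD SE_T_BJ
    _root_.SE.All.aBR CAA_T_DS _root_.SE.UZ.pf_POA a_ID

theorem a_PHA : SE.UZ.T_PHA :=
  _root_.SE.UZ.pf_PHA a_QRN _root_.SE.All.aBK

theorem a_QC3 : SE.UZ.T_QC3 :=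
  _root_.SE.UZ.pf_QC3 SE_T_BJ _root_.SE.All.aBE _root_.SE.All.aBC SE_T_BBa

theorem SE_T_TBb : SE.T_TBb :=
  _root_.SE.pf_TBb _root_.SE.pf_BA _root_.SE.All.aBC _root_.SE.All.aBD _root_.SE.t_tba
    _root_.SE.pf_TBd

theorem a_FB3 : SE.UZ.T_FB3 :=
  _root_.SE.UZ.pf_FB3 _root_.SE.pf_BA _root_.SE.All.aBR

theorem a_ZE : SE.UZ.T_ZE :=
  _root_.SE.UZ.pf_ZE a_PHA a_QRN _root_.SE.All.aBL _root_.SE.All.aBK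

theorem a_PLW : SE.UZ.T_PLW :=
  _root_.SE.UZ.pf_PLW a_PHA a_QRN _root_.SE.All.aBL

theorem a_AM3 : SE.UZ.T_AM3 :=
  _root_.SE.UZ.pf_AM3 _root_.SE.All.aAC _root_.SE.All.aAF SE_T_BBa _root_.SE.All.aBE SE_T_BJ
    _root_.SE.All.aBQ

theorem a_PW2 : SE.UZ.T_PW2 :=
  _root_.SE.UZ.pf_PW2 _root_.SE.UZ.pf_pwe _root_.SE.UZ.pf_psj a_PHA a_PLW _root_.SE.All.aBL

theorem a_Y6 : SE.UZ.T_Y6 :=
  _root_.SE.UZ.pf_Y6 SE_T_BBa _root_.SE.All.aBD SE_T_BJ a_QRN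

theorem a_ZW : SE.UZ.T_ZW :=
  _root_.SE.UZ.pf_ZW _root_.SE.UZ.pf_pwe a_PHA _root_.SE.UZ.pf_POA a_QRN SE_T_BJ
    _root_.SE.All.aBL _root_.SE.All.aBK

theorem SE_T_TBe : SE.T_TBe :=
  _root_.SE.pf_TBe _root_.SE.pf_BA _root_.SE.All.aBC _root_.SE.All.aBD _root_.SE.t_tba
    _root_.SE.pf_TBd SE_T_TBb

theorem a_PCW : SE.UZ.T_PCW :=
  _root_.SE.UZ.pf_PCW _root_.SE.All.aAA SE_T_AG _root_.SE.All.aAH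

theorem SE_T_UE : SE.T_UE :=
  _root_.SE.pf_UE _root_.SE.All.aAA _root_.Pool.Agent.H90.CA.dj

theorem a_PTJ : SE.UZ.T_PTJ :=
  _root_.SE.UZ.pf_PTJ _root_.SE.All.aAA _root_.SE.All.aAF SE_T_AG _root_.SE.pf_UA SE_T_UB

theorem a_QC2 : SE.UZ.T_QC2 :=
  _root_.SE.UZ.pf_QC2 _root_.SE.All.aBM _root_.SE.All.aBD _root_.SE.All.aBC _root_.SE.All.aBL

theorem a_FB1 : SE.UZ.T_FB1 :=
  _root_.SE.UZ.pf_FB1 _root_.SE.All.aBBb _root_.SE.All.aBBc a_QI4d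

theorem a_AH : SE.UZ.T_AH :=
  _root_.SE.UZ.pf_AH _root_.SE.UZ.pf_Lb a_QRM

theorem a_A1 : SE.UZ.T_A1 :=
  _root_.SE.UZ.pf_A1 _root_.SE.UZ.pf_pwe _root_.SE.UZ.pf_psj _root_.SE.UZ.pf_POA a_PHA a_QRM
    a_QRN _root_.SE.All.aBL

theorem a_LK : SE.UZ.T_LK :=
  _root_.SE.UZ.pf_LK _root_.SE.UZ.pf_pwe _root_.SE.UZ.pf_psj _root_.SE.UZ.pf_POA a_PHA a_PW2
    a_QRN _root_.SE.All.aBL

theorem a_QI1i : SE.UZ.T_QI1i :=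
  _root_.SE.UZ.pf_QI1i _root_.SE.t_tba SE_T_TBc _root_.SE.All.aBC _root_.SE.All.aBD SE_T_BJ

theorem a_L4 : SE.UZ.T_L4 :=
  _root_.SE.UZ.pf_L4 _root_.SE.UZ.pf_pwe a_POC a_QRN _root_.SE.All.aBM SE_T_BO a_A1
    _root_.SE.All.aBD SE_T_BJ

theorem SE_T_UF : SE.T_UF :=
  _root_.SE.pf_UF SE_T_AG _root_.SE.pf_UC

theorem a_LF : SE.UZ.T_LF :=
  _root_.SE.UZ.pf_LF _root_.SE.UZ.pf_pwe _root_.SE.UZ.pf_psj _root_.SE.UZ.pf_POA a_PHA a_PLW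
    a_PW2 a_QRN _root_.SE.All.aBL _root_.SE.All.aBM _root_.SE.All.aBD

theorem a_AM1 : SE.UZ.T_AM1 :=
  _root_.SE.UZ.pf_AM1 _root_.SE.All.aLC1 _root_.CAA.All.aDN _root_.CAA.pf_DM _root_.CAA.All.aDH
    _root_.CAA.pf_DF _root_.CAA.All.aGB _root_.CAA.All.aGC _root_.SE.All.aAC

theorem a_POB : SE.UZ.T_POB :=
  _root_.SE.UZ.pf_POB _root_.SE.UZ.pf_POA

theorem a_AM4 : SE.UZ.T_AM4 :=
  _root_.SE.UZ.pf_AM4 _root_.SE.UZ.pf_AM2 a_AM3 _root_.SE.All.aAC _root_.SE.All.aAF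
    _root_.SE.All.aBBb _root_.SE.All.aBBc _root_.SE.All.aBD SE_T_BJ _root_.SE.All.aBR
    _root_.SE.All.aCH

theorem a_FB2 : SE.UZ.T_FB2 :=
  _root_.SE.UZ.pf_FB2 _root_.SE.UZ.pf_Lb a_QI4d a_QRN a_FB1

theorem SE_T_TCa : SE.T_TCa :=
  _root_.SE.pf_TCa SE_T_BBa _root_.SE.All.aBBc _root_.SE.All.aBC _root_.SE.All.aBD SE_T_BJ
    _root_.SE.t_tba SE_T_TBb _root_.SE.pf_TBd SE_T_TBe

theorem a_PAH : SE.UZ.T_PAH :=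
  _root_.SE.UZ.pf_PAH _root_.SE.pf_BA SE_T_BJ a_QRN a_AH

theorem a_PW3 : SE.UZ.T_PW3 :=
  _root_.SE.UZ.pf_PW3 _root_.SE.UZ.pf_pwe a_PHA _root_.SE.All.aBL

theorem a_PCC : SE.UZ.T_PCC :=
  _root_.SE.UZ.pf_PCC a_PCW _root_.SE.All.aKS _root_.SE.All.aAH SE_T_AI

theorem a_W0 : SE.UZ.T_W0 :=
  _root_.SE.UZ.pf_W0 a_F5 _root_.SE.UZ.pf_pwe a_PHA a_QRN _root_.SE.All.aBL _root_.SE.pf_BA

theorem a_QI2 : SE.UZ.T_QI2 :=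
  _root_.SE.UZ.H74QI2.pf_QI2 _root_.SE.t_tba SE_T_TBb _root_.SE.pf_TBd _root_.SE.All.aBC
    _root_.SE.All.aBBc

theorem a_W1 : SE.UZ.T_W1 :=
  _root_.SE.UZ.pf_W1 a_W0 a_PHA a_PLW _root_.SE.UZ.pf_pwe a_QRN _root_.SE.All.aBL
    _root_.SE.All.aBM _root_.SE.All.aBD

theorem SE_T_TDa : SE.T_TDa :=
  _root_.SE.pf_TDa _root_.SE.All.aAF SE_T_AG _root_.SE.All.aAH _root_.SE.All.aBC
    _root_.SE.All.aBD _root_.SE.t_tba SE_T_TBb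

theorem SE_T_TCc : SE.T_TCc :=
  _root_.SE.pf_TCc _root_.SE.All.aAB _root_.SE.pf_BA _root_.SE.All.aBC _root_.SE.All.aBD SE_T_BJ
    _root_.SE.All.aBL _root_.SE.t_tba _root_.SE.pf_TBd SE_T_TBb SE_T_TCa

theorem a_Y1 : SE.UZ.T_Y1 :=
  _root_.SE.UZ.pf_Y1 _root_.SE.UZ.pf_pwe a_ZE a_POB

theorem a_W0n : SE.UZ.T_W0n :=
  _root_.SE.UZ.pf_W0n a_F5 a_W0

theorem a_PTY : SE.UZ.T_PTY :=
  _root_.SE.UZ.pf_PTY _root_.SE.All.aAA _root_.SE.All.aAF SE_T_AG _root_.SE.pf_UC a_PTJ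

theorem SE_T_TCd : SE.T_TCd :=
  _root_.SE.pf_TCd SE_T_BBa _root_.SE.All.aBBc _root_.SE.All.aBC _root_.SE.All.aBD SE_T_BJ
    _root_.SE.All.aBM _root_.SE.All.aBR _root_.SE.t_tba _root_.SE.pf_TBd SE_T_TBb SE_T_TCa
    SE_T_TCc

theorem SE_T_TCb : SE.T_TCb :=
  _root_.SE.pf_TCb _root_.SE.pf_BA _root_.SE.All.aBC _root_.SE.All.aBD SE_T_BJ _root_.SE.All.aBK
    _root_.SE.t_tba SE_T_TBb SE_T_TCa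

theorem a_IL : SE.UZ.T_IL :=
  _root_.SE.UZ.pf_IL a_IW _root_.SE.UZ.pf_pwe a_PHA a_PW3 _root_.SE.All.aBR

theorem a_QI4 : SE.UZ.T_QI4 :=
  _root_.SE.UZ.pf_QI4 _root_.SE.pf_BA SE_T_BBa _root_.SE.All.aBBc _root_.SE.All.aBC
    _root_.SE.All.aBD SE_T_BJ SE_T_BO _root_.SE.All.aBR _root_.SE.t_tba SE_T_TBb _root_.SE.pf_TBd
    SE_T_TDa a_QI4d

theorem a_PCF : SE.UZ.T_PCF :=
  _root_.SE.UZ.pf_PCF _root_.SE.All.aAH SE_T_AI a_PCW a_PCC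

theorem a_QCF : SE.UZ.T_QCF :=
  _root_.SE.UZ.pf_QCF a_QI1i a_QI4 a_QI4d _root_.SE.UZ.pf_QTG _root_.SE.All.aBR

theorem a_AMB : SE.UZ.T_AMB :=
  _root_.SE.UZ.pf_AMB _root_.CAA.All.aDA a_AM1 _root_.SE.All.aLG2 _root_.SE.All.aLA2
    _root_.SE.All.aLB _root_.SE.All.aLC2 _root_.SE.All.aLE a_AM4 _root_.SE.All.aCOD SE_T_BJ

theorem a_FB7 : SE.UZ.T_FB7 :=
  _root_.SE.UZ.pf_FB7 a_FB1 a_FB2 a_FB3 a_FB6 a_PCS SE_T_BJ _root_.SE.All.aBL _root_.SE.All.aBK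
    _root_.SE.pf_BA _root_.SE.All.aBC

theorem a_PTZ : SE.UZ.T_PTZ :=
  _root_.SE.UZ.pf_PTZ SE_T_UF a_PTX a_PTY

theorem a_LA : SE.UZ.T_LA :=
  _root_.SE.UZ.pf_LA _root_.SE.pf_BA SE_T_BBa SE_T_BJ _root_.SE.All.aBL _root_.SE.UZ.pf_pwe
    _root_.SE.UZ.pf_psj _root_.SE.UZ.pf_POA a_PHA a_PLW a_PW2 a_PAH a_QRM a_QRN

theorem a_PCE : SE.UZ.T_PCE :=
  _root_.SE.UZ.pf_PCE a_PCW a_PCC a_PCD _root_.SE.All.aAH SE_T_AI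

theorem a_Y2 : SE.UZ.T_Y2 :=
  _root_.SE.UZ.pf_Y2 a_W0 a_ZW a_ZE a_QRM

theorem a_FAP : SE.UZ.T_FAP :=
  _root_.SE.UZ.pf_FAP a_AMB SE_T_BJ _root_.SE.All.aBD

theorem a_QI1 : SE.UZ.T_QI1 :=
  _root_.SE.UZ.pf_QI1 _root_.SE.t_tba SE_T_TBb _root_.SE.pf_TBd SE_T_TBe SE_T_TCa SE_T_TCd
    _root_.SE.All.aBD _root_.SE.All.aBR _root_.SE.pf_BA

theorem a_PTU : SE.UZ.T_PTU :=
  _root_.SE.UZ.pf_PTU SE_T_UE SE_T_UF a_PTX a_PTZ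

theorem a_RH : SE.UZ.T_RH :=
  _root_.SE.UZ.pf_RH a_IL a_IWd _root_.SE.UZ.pf_psj

theorem a_X2 : SE.UZ.T_X2 :=
  _root_.SE.UZ.pf_X2 _root_.SE.UZ.pf_Lb a_RH a_IW

theorem a_Q3 : SE.UZ.T_Q3 :=
  _root_.SE.UZ.pf_Q3 _root_.SE.All.aBL a_QRN _root_.SE.UZ.pf_pwe a_PHA a_PLW a_F5 a_RH a_W0 a_W1

theorem a_POT : SE.UZ.T_POT :=
  _root_.SE.UZ.pf_POT _root_.SE.UZ.pf_POA a_QI1 _root_.SE.UZ.pf_psj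

theorem a_PCG : SE.UZ.T_PCG :=
  _root_.SE.UZ.pf_PCG _root_.SE.All.aAH SE_T_AI a_PCW a_PCC a_PCE a_PCF

theorem a_PCH : SE.UZ.T_PCH :=
  _root_.SE.UZ.pf_PCH a_PCG

theorem a_Y5 : SE.UZ.T_Y5 :=
  _root_.SE.UZ.pf_Y5 _root_.SE.UZ.pf_pwe a_ZW a_RH a_PHA a_QRN

theorem a_Q5 : SE.UZ.T_Q5 :=
  _root_.SE.UZ.pf_Q5 a_Q3 _root_.SE.UZ.pf_pwe a_PHA a_QRN _root_.SE.All.aBL a_W0

theorem a_Y7 : SE.UZ.T_Y7 :=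
  _root_.SE.UZ.pf_Y7 _root_.SE.UZ.pf_Lb a_RH a_IW

theorem a_QC1 : SE.UZ.T_QC1 :=
  _root_.SE.UZ.pf_QC1 a_QCF a_QI1

theorem a_Q4a : SE.UZ.T_Q4a :=
  _root_.SE.UZ.pf_Q4a a_Q3 a_QRN _root_.SE.All.aBK _root_.SE.All.aBL

theorem a_QI3 : SE.UZ.T_QI3 :=
  _root_.SE.UZ.pf_QI3 a_QI1 _root_.SE.pf_BA _root_.SE.All.aBC _root_.SE.All.aBD SE_T_BJ
    _root_.SE.All.aBL SE_T_TBb SE_T_TCa SE_T_TCb SE_T_TCd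

theorem a_NT : SE.UZ.T_NT :=
  _root_.SE.UZ.pf_NT _root_.SE.UZ.pf_Lb a_RH a_IW

theorem a_ZR : SE.UZ.T_ZR :=
  _root_.SE.UZ.pf_ZR a_RH SE_T_BJ

theorem a_PHB : SE.UZ.T_PHB :=
  _root_.SE.UZ.pf_PHB a_PHA a_QI1 a_QI2 a_QI3 _root_.SE.pf_BA _root_.SE.All.aBBc SE_T_BJ
    _root_.SE.All.aBL

theorem a_FRN : SE.UZ.T_FRN :=
  _root_.SE.UZ.pf_FRN _root_.SE.All.aBBb _root_.SE.All.aBBc _root_.SE.All.aBC SE_T_BJ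
    _root_.SE.All.aBK _root_.SE.All.aBL a_QRN a_QI1 a_QI4d a_PDB a_FRd

theorem a_QSE : SE.UZ.T_QSE :=
  _root_.SE.UZ.pf_QSE _root_.SE.All.aAH _root_.SE.All.aBC SE_T_BJ _root_.SE.All.aBK
    _root_.SE.All.aBL a_QRN a_QI1 a_QI3

theorem a_FR1 : SE.UZ.T_FR1 :=
  _root_.SE.UZ.pf_FR1 a_QRN a_QI1 a_QI3 _root_.SE.All.aBM _root_.SE.All.aBL SE_T_BJ
    _root_.SE.pf_BA _root_.SE.All.aBD

theorem a_Q1a : SE.UZ.T_Q1a :=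
  _root_.SE.UZ.pf_Q1a a_NT

theorem a_Y14 : SE.UZ.T_Y14 :=
  _root_.SE.UZ.pf_Y14 a_NT a_QI4d

theorem a_FRL : SE.UZ.T_FRL :=
  _root_.SE.UZ.pf_FRL _root_.SE.pf_BA _root_.SE.All.aBBb _root_.SE.All.aBD SE_T_BJ
    _root_.SE.All.aBK _root_.SE.All.aBL SE_T_BO _root_.SE.All.aBR _root_.SE.All.aAH CAA_T_DS
    a_QI4d a_QRN a_FR1

theorem a_FB5 : SE.UZ.T_FB5 :=
  _root_.SE.UZ.pf_FB5 a_FB1 a_FB2 a_QI1 a_QI1i a_QI3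

theorem a_ZK : SE.UZ.T_ZK :=
  _root_.SE.UZ.pf_ZK a_QI1 a_QI2 a_QI3 a_QRN _root_.SE.All.aBK

theorem a_Q4 : SE.UZ.T_Q4 :=
  _root_.SE.UZ.pf_Q4 a_Q3 a_Q4a _root_.SE.UZ.pf_pwe a_PW2 a_PLW a_PHA a_QRN a_RH
    _root_.SE.All.aAH _root_.SE.All.aBL a_W0

theorem a_Y3 : SE.UZ.T_Y3 :=
  _root_.SE.UZ.pf_Y3 a_Y2 a_W0 a_ZR a_ZW a_PLW a_PHA

theorem a_FRX : SE.UZ.T_FRX :=
  _root_.SE.UZ.pf_FRX a_FR1 a_QC1 a_QC3 a_QI2 _root_.SE.t_tba _root_.SE.All.aCH SE_T_BBa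
    _root_.SE.All.aBBc _root_.SE.All.aBC _root_.SE.All.aBD _root_.SE.All.aBR

theorem a_LV : SE.UZ.T_LV :=
  _root_.SE.UZ.pf_LV _root_.SE.UZ.pf_pwe _root_.SE.UZ.pf_psj _root_.SE.UZ.pf_POA a_POT a_PHA
    a_PHB a_PW2 a_QI1 a_QI3 a_QI4 a_QRN _root_.SE.All.aBL

theorem a_FR5 : SE.UZ.T_FR5 :=
  _root_.SE.UZ.pf_FR5 a_FR1 a_QSE a_QC1 a_QC2 a_QI1 a_QI3 a_QRN a_PDE a_PDB SE_T_BO
    _root_.SE.All.aBK _root_.SE.All.aBL _root_.SE.All.aBR _root_.SE.All.aBC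

theorem a_Q1c : SE.UZ.T_Q1c :=
  _root_.SE.UZ.pf_Q1c _root_.SE.UZ.pf_Lb _root_.SE.UZ.pf_pwe a_Q1a

theorem a_Q8 : SE.UZ.T_Q8 :=
  _root_.SE.UZ.pf_Q8 SE_T_BJ a_Q3 a_Q4 a_Q5 a_PCH a_PHA a_QRN

theorem a_FRm : SE.UZ.T_FRm :=
  _root_.SE.UZ.pf_FRm a_FR5 a_QRN _root_.SE.All.aBL

theorem a_CPF : SE.UZ.T_CPF :=
  _root_.SE.UZ.pf_CPF _root_.SE.UZ.pf_pwe _root_.SE.UZ.pf_psj _root_.SE.UZ.pf_POA a_PHA a_PHB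
    a_QC1 a_QI1 a_QRN _root_.SE.All.aBL _root_.SE.All.aBBc

theorem a_Y12 : SE.UZ.T_Y12 :=
  _root_.SE.UZ.pf_Y12 a_W0 a_ZR a_ZW

theorem a_FR6 : SE.UZ.T_FR6 :=
  _root_.SE.UZ.pf_FR6 _root_.SE.pf_BA SE_T_BJ _root_.SE.All.aBL _root_.SE.All.aAH a_QRN a_QSE
    a_F5 a_FRN

theorem a_FR2 : SE.UZ.T_FR2 :=
  _root_.SE.UZ.pf_FR2 a_FR1 a_QSE a_QI1 a_QI3 a_QI4

theorem a_Q1b : SE.UZ.T_Q1b :=
  _root_.SE.UZ.pf_Q1b a_Q1a a_QI1 a_QI4d SE_T_BBa _root_.SE.All.aBBb _root_.SE.All.aBBc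

theorem a_FRa : SE.UZ.T_FRa :=
  _root_.SE.UZ.pf_FRa SE_T_BJ _root_.SE.All.aBL a_QRN a_QI1 a_QI1i a_QI3 a_FR1 a_FR2 a_FR5 a_FRm
    a_FRN

theorem a_FB : SE.UZ.T_FB :=
  _root_.SE.UZ.pf_FB a_FB1 a_FB2 a_FB3 a_FB4 a_FB5 a_FB7

theorem a_LI : SE.UZ.T_LI :=
  _root_.SE.UZ.pf_LI _root_.SE.UZ.pf_pwe _root_.SE.UZ.pf_psj _root_.SE.UZ.pf_POA a_POB a_PHA
    a_PLW a_PW2 a_PDE a_PDB a_CPF a_QC2 a_QI1 a_QI3 a_QRM a_QRN SE_T_BO _root_.SE.All.aBK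
    _root_.SE.All.aBL SE_T_BJ _root_.SE.All.aBR _root_.SE.pf_BA

theorem a_LP : SE.UZ.T_LP :=
  _root_.SE.UZ.pf_LP _root_.SE.UZ.pf_pwe _root_.SE.UZ.pf_psj _root_.SE.UZ.pf_POA a_POB a_PHA
    a_PLW a_PW2 a_PDE a_PDB a_CPF a_QC2 a_QI1 a_QI3 a_QRM a_QRN SE_T_BO _root_.SE.All.aBK
    _root_.SE.All.aBL SE_T_BJ _root_.SE.All.aBR _root_.SE.pf_BA

theorem a_LL : SE.UZ.T_LL :=
  _root_.SE.UZ.pf_LL a_LV a_LA a_LI a_LP a_LF a_LK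

theorem a_W2a : SE.UZ.T_W2a :=
  _root_.SE.UZ.pf_W2a _root_.SE.UZ.pf_Lb _root_.SE.UZ.pf_pwe _root_.SE.UZ.pf_POA a_PHA a_QF4
    a_QRM a_QRN a_LL

theorem a_FR3a : SE.UZ.T_FR3a :=
  _root_.SE.UZ.pf_FR3a a_FR1 a_FRX a_FRE a_FRL a_QSE a_QI1 a_QI2 a_QI3 a_QRN a_PDE a_PDB SE_T_BO
    _root_.SE.All.aBK _root_.SE.All.aBL _root_.SE.All.aBC _root_.SE.All.aBD SE_T_BJ
    _root_.SE.All.aBR _root_.SE.UZ.pf_SM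

theorem a_Q1 : SE.UZ.T_Q1 :=
  _root_.SE.UZ.pf_Q1 a_Q1a a_Q1b a_Q1c

theorem a_Y8b : SE.UZ.T_Y8b :=
  _root_.SE.UZ.pf_Y8b a_Y3 a_ZR a_ZW a_ZE a_LL a_PW2 a_QRM a_QRN

theorem a_A : SE.UZ.T_A :=
  _root_.SE.UZ.pf_A a_LL

theorem a_W2 : SE.UZ.T_W2 :=
  _root_.SE.UZ.pf_W2 a_W0 a_W2a a_NT _root_.SE.UZ.pf_CHO _root_.SE.UZ.pf_pwe a_PHA a_PLW a_LL
    a_QRN a_RH _root_.SE.All.aBL _root_.SE.All.aBM _root_.SE.All.aBD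

theorem a_Q6 : SE.UZ.T_Q6 :=
  _root_.SE.UZ.pf_Q6 a_Q3 _root_.SE.UZ.pf_pwe a_PW2 a_L4 a_PHA a_QRN a_RH _root_.SE.All.aAH
    _root_.SE.All.aBL a_W0 a_LL

theorem a_Y4 : SE.UZ.T_Y4 :=
  _root_.SE.UZ.pf_Y4 a_Y1 a_Y3 a_A a_A1 _root_.SE.UZ.pf_SM a_ZR a_ZW a_PW2 a_PLW a_PHA

theorem a_W3a : SE.UZ.T_W3a :=
  _root_.SE.UZ.pf_W3a a_QI1 a_QI3 _root_.SE.UZ.pf_pwe a_POT a_PHB a_LL a_RH a_W0

theorem a_Y10 : SE.UZ.T_Y10 :=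
  _root_.SE.UZ.pf_Y10 a_Y2 a_Y3 a_W0 a_ZR a_ZW a_ZE a_LL a_PLW a_QRM _root_.SE.All.aBL

theorem a_FR3 : SE.UZ.T_FR3 :=
  _root_.SE.UZ.pf_FR3 a_FR1 a_FR3a a_FRm

theorem a_Q2 : SE.UZ.T_Q2 :=
  _root_.SE.UZ.pf_Q2 a_Q1 a_W0 a_QRN a_PHA _root_.SE.UZ.pf_pwe _root_.SE.UZ.pf_Lb

theorem a_W3 : SE.UZ.T_W3 :=
  _root_.SE.UZ.pf_W3 a_W3a a_W0 a_PHA a_PHB a_QI1 a_QI3 _root_.SE.UZ.pf_pwe _root_.SE.UZ.pf_POA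
    a_LL a_RH _root_.SE.pf_BA SE_T_BBa _root_.SE.All.aBBc _root_.SE.All.aBC SE_T_BJ
    _root_.SE.All.aBL _root_.SE.t_tba

theorem a_Q7 : SE.UZ.T_Q7 :=
  _root_.SE.UZ.pf_Q7 a_Q5 a_Q6 a_Q3 a_QRN _root_.SE.All.aAH a_PHA _root_.SE.UZ.pf_pwe

theorem a_LU : SE.UZ.T_LU :=
  _root_.SE.UZ.pf_LU _root_.SE.UZ.pf_pwe _root_.SE.UZ.pf_psj _root_.SE.UZ.pf_POA a_POB a_PHA
    a_PLW a_PW2 a_PDE a_PDB a_CPF a_QC2 a_QI1 a_QI3 a_QRM a_QRN SE_T_BO _root_.SE.All.aBK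
    _root_.SE.All.aBL SE_T_BJ _root_.SE.All.aBR _root_.SE.pf_BA a_LL a_A1 _root_.SE.All.aBD
    _root_.SE.All.aBM

theorem a_Y13 : SE.UZ.T_Y13 :=
  _root_.SE.UZ.pf_Y13 a_Y1 a_Y2 a_Y12 a_A _root_.SE.UZ.pf_SM a_W0 a_RH _root_.SE.UZ.pf_psj
    _root_.SE.UZ.pf_pwe a_ZR a_ZW a_ZE a_QRM _root_.SE.All.aBR

theorem a_FR4 : SE.UZ.T_FR4 :=
  _root_.SE.UZ.pf_FR4 a_FRN a_FR1 a_FR3

theorem a_X1 : SE.UZ.T_X1 :=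
  _root_.SE.UZ.pf_X1 a_CPF _root_.SE.UZ.pf_CHO a_LL a_RH _root_.SE.UZ.pf_pwe a_QC3 a_QI1 a_QI2
    _root_.SE.pf_BA SE_T_BBa _root_.SE.All.aBBc _root_.SE.All.aBC _root_.SE.All.aBD SE_T_BJ
    _root_.SE.All.aBR _root_.SE.t_tba

theorem a_Y8a : SE.UZ.T_Y8a :=
  _root_.SE.UZ.pf_Y8a a_Y2 a_Y3 a_W0 a_ZR a_ZW a_ZE a_LL a_PLW a_PW2 a_PHA a_QRM a_QRN

theorem a_X3 : SE.UZ.T_X3 :=
  _root_.SE.UZ.pf_X3 a_ZR a_ZW a_POC a_A _root_.SE.UZ.pf_psj _root_.SE.UZ.pf_pwe a_RH SE_T_BO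
    _root_.SE.All.aAH _root_.SE.All.aBK SE_T_BJ _root_.SE.All.aBD _root_.SE.All.aBBb CAA_T_DS

theorem a_Y9 : SE.UZ.T_Y9 :=
  _root_.SE.UZ.pf_Y9 a_Y2 a_A _root_.SE.UZ.pf_SM a_ZR a_ZW _root_.SE.UZ.pf_pwe a_RH

theorem a_QD : SE.UZ.T_QD :=
  _root_.SE.UZ.pf_QD _root_.SE.pf_BA SE_T_BJ a_W0 a_Q1 a_Q2 a_W1 a_QRN

theorem a_QA : SE.UZ.T_QA :=
  _root_.SE.UZ.pf_QA a_Q1 a_W0 a_W1 a_W2

theorem a_QE : SE.UZ.T_QE :=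
  _root_.SE.UZ.pf_QE SE_T_BJ a_Q1 a_Q2 a_Q3 a_Q4 a_Q7 a_Q8 a_W0 a_QRN a_PHA

theorem a_W3b : SE.UZ.T_W3b :=
  _root_.SE.UZ.pf_W3b a_W3 a_W3a a_W0 a_W1 a_PHA a_PHB a_QI1 a_QI1i a_QI3 _root_.SE.UZ.pf_pwe
    _root_.SE.UZ.pf_POA _root_.SE.pf_BA _root_.SE.All.aBC SE_T_BJ _root_.SE.All.aBL
    _root_.SE.t_tba

theorem a_Y8 : SE.UZ.T_Y8 :=
  _root_.SE.UZ.pf_Y8 a_Y5 a_Y6 a_Y7 a_Y8a a_Y8b a_ZR a_ZW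

theorem a_FrOk : SE.UZ.T_FrOk :=
  _root_.SE.UZ.pf_FrOk a_FRN a_FRa a_FR4 a_FR6

theorem a_X4 : SE.UZ.T_X4 :=
  _root_.SE.UZ.pf_X4 a_X1 a_X2 a_X3 a_LU a_PDE a_PDB a_QI1 a_QI2 a_QI3 a_QRN _root_.SE.All.aBL
    SE_T_BJ _root_.SE.All.aBC _root_.SE.All.aBD _root_.SE.All.aBK SE_T_BO a_ZR a_ZW a_ZE a_ZK a_LL

theorem a_QB : SE.UZ.T_QB :=
  _root_.SE.UZ.pf_QB a_Q1 a_Q2 a_W0 a_W3 a_W3b a_QI1 a_QI1i a_QI3 a_QRN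

theorem a_Y11 : SE.UZ.T_Y11 :=
  _root_.SE.UZ.H23.pf_Y11 a_X4 a_Y4 a_Y8 a_Y9 a_Y10 a_W0 _root_.SE.All.aBR

theorem a_PAS : SE.UZ.T_PAS :=
  _root_.SE.UZ.pf_PAS a_Y11 a_Y13 a_Y14 _root_.SE.UZ.pf_RC a_ZR

theorem a_RT : SE.UZ.T_RT :=
  _root_.SE.UZ.pf_RT a_PAS _root_.SE.All.aAA SE_T_BJ _root_.SE.All.aBR

theorem a_ADD : SE.UZ.T_ADD :=
  _root_.SE.UZ.H74ADD.pf_ADD a_PAS a_W0 a_W0n a_W1 a_POC a_A a_A1 a_ZR a_ZW _root_.SE.All.aBR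
    SE_T_BJ _root_.SE.All.aBL _root_.SE.All.aBK

theorem a_QC : SE.UZ.T_QC :=
  _root_.SE.UZ.pf_QC a_Q1 a_PAS a_ADD a_W1

theorem a_PrOk : SE.UZ.T_PrOk :=
  _root_.SE.UZ.pf_PrOk a_Q1 a_QA a_QB a_QC a_QD a_QE

theorem a_FAG : SE.UZ.T_FAG :=
  _root_.SE.UZ.pf_FAG a_FB a_FrOk a_PrOk _root_.SE.UZ.pf_FA1

end SE.UZ.All
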